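import Pool.Agent.Lib.MP_6e81d8_ag.H36.Open
import Pool.Agent.Lib.MP_6e81d8_ag.H93.Leaf
import Pool.Agent.Lib.MP_6e81d8_ag.H93.Gen

/-!
The leaf inequality as an emptiness statement.
-/

set_option autoImplicit false

namespace Pool.Agent.Lib.MP_6e81d8_ag.H36

open Polynomial Finset H88
open scoped Polynomial.Bivariate

theorem leafW_gen (ι : Type) [Fintype ι] [DecidableEq ι] :
    ∃ x c : ι → ℚ, Function.Injective x ∧ (∀ i, c i ≠ 0) ∧ H93.Gen x c := by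
  obtain ⟨x, c, hx, hc, hg⟩ := H93.exists_gen (Fintype.card ι)
  let e := Fintype.equivFin ι
  refine ⟨fun i => x (e i), fun i => c (e i), hx.comp e.injective, fun i => hc _,
    fun J p q hp hq hJ => ?_⟩
  have h1 := hg (J.map e.toEmbedding) p q hp hq fun j hj => by
    obtain ⟨i, hi, rfl⟩ := mem_map.1 hj
    exact hJ i hi
  rw [card_map, ← Finset.sum_equiv e (s := Jᶜ)
    (f := fun i => rootMultiplicity (x (e i)) p + rootMultiplicity (x (e i)) q)
    (fun i => by simp) fun _ _ => rfl] at h1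
  exact h1

theorem ge_leaf {ι : Type} [Fintype ι] {D : ℕ → ℕ → Prop} {φ : ι → ℕ → ℕ} {J : ι → Bool}
    (r : ℕ) (S A : ℝ) (σ z : ι → ℝ) (hD : ∀ i k, D i k → k ≤ r ∧ (i : ℝ) + S * k ≤ A)
    (hσ : ∀ j, J j = true → σ j = 1) (hφ : ∀ j, ∀ k ≤ r, z j - σ j * k ≤ φ j k)
    (h0 : 0 ≤ ∑ j, σ j - S) (h1 : ∑ j, σ j - S ≤ 2 * ∑ j, if J j then (1 : ℝ) else 0)
    (hfr : ∀ y : ι → ℤ, 1 ≤ ∑ j, |(y j : ℝ) - σ j|)
    (hX : r * (∑ j, σ j - S) < 2 * (∑ j, z j - A)) : GE D φ J := by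
  classical
  obtain ⟨x, c, hx, hc, hg⟩ := leafW_gen ι
  refine ⟨x, fun i => if J i = true then c i else 0, fun j hj => by simp [hj], fun G hS hC => ?_⟩
  by_contra hG
  obtain ⟨I, hI⟩ : ∃ I : Finset ι, I = univ.filter fun i => J i = true := ⟨_, rfl⟩
  have hm : ∀ i, i ∈ I ↔ J i = true := fun i => by simp [hI]
  have hrow : ∀ t, G.coeff t ≠ 0 → t ≤ r ∧ ((G.coeff t).natDegree : ℝ) + S * t ≤ A :=
    fun t ht => hD _ _ (hS _ t (leadingCoeff_ne_zero.2 ht))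
  have hr : G.natDegree ≤ r := (hrow _ (leadingCoeff_ne_zero.2 hG)).1
  have key := H93.leaf x c (fun i => if J i = true then c i else 0) hx hc hg I
    (fun i hi => if_pos ((hm i).1 hi)) (fun i hi => if_neg (mt (hm i).2 hi)) σ z
    (fun j hj => hσ j ((hm j).1 hj)) S A ?_ (fun y => ?_) G hG (fun t ht => (hrow t ht).2)
    fun i t ht => ?_
  · have h2 : (G.natDegree : ℝ) ≤ r := by exact_mod_cast hr
    linarith [mul_le_mul_of_nonneg_right h2 h0]
  · rw [← Finset.sum_add_sum_compl I σ,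
      Finset.sum_congr rfl fun j hj => hσ j ((hm j).1 hj), Finset.sum_boole, ← hI] at h1
    simp only [Finset.sum_const, nsmul_eq_mul, mul_one] at h1
    linarith
  · have h2 := hfr fun i => if i ∈ I then 1 else y i
    rw [← Finset.sum_add_sum_compl I, Finset.sum_eq_zero fun j hj => by
      simp [hj, hσ j ((hm j).1 hj)], zero_add] at h2
    refine h2.trans (le_of_eq (Finset.sum_congr rfl fun j hj => ?_))
    rw [if_neg (mem_compl.1 hj)]
  · have h2 : t ≤ r := by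
      have := le_natDegree_of_ne_zero ht
      rw [natDegree_taylor] at this
      exact this.trans hr
    have h3 : (φ i t : ℝ) ≤ rootMultiplicity (x i)
        ((taylor (C (if J i = true then c i else 0)) G).coeff t) := by
      exact_mod_cast (le_rootMultiplicity_iff ht).2 (cnd_iff_dvd.1 (hC i) t)
    linarith [hφ i t h2]

/-- The same, for places that come in types. -/
theorem ge_leafT {T : Type} [Fintype T] (ν : T → ℕ) {D : ℕ → ℕ → Prop} {φ : T → ℕ → ℕ}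
    {J : T → Bool} (r : ℕ) (S A : ℝ) (σ z : T → ℝ)
    (hD : ∀ i k, D i k → k ≤ r ∧ (i : ℝ) + S * k ≤ A)
    (hσ : ∀ τ, J τ = true → σ τ = 1) (hφ : ∀ τ, ∀ k ≤ r, z τ - σ τ * k ≤ φ τ k)
    (h0 : 0 ≤ ∑ τ, ν τ * σ τ - S)
    (h1 : ∑ τ, ν τ * σ τ - S ≤ 2 * ∑ τ, if J τ then (ν τ : ℝ) else 0)
    (hfr : ∃ τ, ∀ y : ℤ, 1 ≤ ν τ * |(y : ℝ) - σ τ|)
    (hX : r * (∑ τ, ν τ * σ τ - S) < 2 * (∑ τ, ν τ * z τ - A)) :
    GE D (fun x : Σ τ, Fin (ν τ) => φ x.1) (fun x => J x.1) := by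
  have hs : ∀ f : T → ℝ, ∑ x : Σ τ, Fin (ν τ), f x.1 = ∑ τ, ν τ * f τ := fun f => by
    simp [Fintype.sum_sigma]
  refine ge_leaf r S A (fun x => σ x.1) (fun x => z x.1) hD (fun x => hσ x.1) (fun x => hφ x.1)
    (by rwa [hs]) ?_ (fun y => ?_) (by rwa [hs, hs])
  · rw [hs, hs fun τ => if J τ then 1 else 0]
    simpa using h1
  · obtain ⟨τ, hτ⟩ := hfr
    have h2 : ∑ k : Fin (ν τ), |(y ⟨τ, k⟩ : ℝ) - σ τ| ≤ ∑ x : Σ τ, Fin (ν τ), |(y x : ℝ) - σ x.1| := by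
      rw [Fintype.sum_sigma]
      exact Finset.single_le_sum (f := fun τ => ∑ k : Fin (ν τ), |(y ⟨τ, k⟩ : ℝ) - σ τ|)
        (fun _ _ => Finset.sum_nonneg fun _ _ => abs_nonneg _) (mem_univ τ)
    refine le_trans ?_ h2
    have h3 : (0 : ℝ) < ν τ := by
      have := hτ 0
      by_contra h4
      rw [le_antisymm (not_lt.1 h4) (Nat.cast_nonneg _), zero_mul] at this
      linarith
    have h4 := Finset.sum_le_sum fun (k : Fin (ν τ)) (_ : k ∈ univ) => hτ (y ⟨τ, k⟩)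
    rw [← Finset.mul_sum, Finset.sum_const, card_univ, Fintype.card_fin, nsmul_eq_mul] at h4
    exact le_of_mul_le_mul_left h4 h3

end Pool.Agent.Lib.MP_6e81d8_ag.H36
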