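import Pool.Agent.Lib.MP_6e81d8_ag.H36.Defs

/-!
The ranks of the rows for the convex and for the concave weights.
-/

set_option autoImplicit false

namespace Pool.Agent.Lib.MP_6e81d8_ag.H36

open Finset

variable {p q k : ℕ}

theorem rank_below {s : Finset ℕ} {b : ℕ} (h : ∀ x ∈ s, x < b) : s.card ≤ b := by
  simpa using card_le_card (t := range b) fun x hx => mem_range.2 (h x hx)

theorem rank_above {s : Finset ℕ} {a b : ℕ} (hab : a < b) (h : ∀ x ∈ s, a < x ∧ x < b) :
    s.card + a + 1 ≤ b := by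
  have := card_le_card (t := Ioo a b) fun x hx => mem_Ioo.2 (h x hx)
  rw [Nat.card_Ioo] at this
  omega

theorem rank_max {s : Finset ℕ} (a : ℕ) (h : ∀ x ∈ s, a ≤ x) :
    s.card = 0 ∨ ∃ m ∈ s, s.card + a ≤ m + 1 := by
  rcases s.eq_empty_or_nonempty with rfl | hs
  · exact Or.inl rfl
  · have h1 := h _ (s.max'_mem hs)
    have := card_le_card (t := Icc a (s.max' hs)) fun x hx => mem_Icc.2 ⟨h x hx, s.le_max' x hx⟩
    rw [Nat.card_Icc] at this
    exact Or.inr ⟨_, s.max'_mem hs, by omega⟩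

theorem rank_min {s : Finset ℕ} (b : ℕ) (h : ∀ x ∈ s, x < b) :
    s.card = 0 ∨ ∃ m ∈ s, s.card + m ≤ b := by
  rcases s.eq_empty_or_nonempty with rfl | hs
  · exact Or.inl rfl
  · have h1 := h _ (s.min'_mem hs)
    have := card_le_card (t := Ico (s.min' hs) b) fun x hx => mem_Ico.2 ⟨s.min'_le x hx, h x hx⟩
    rw [Nat.card_Ico] at this
    exact Or.inr ⟨_, s.min'_mem hs, by omega⟩

theorem rank_lamP_lt (hk : k < p) : lamP p q k = 0 := by
  rw [lamP, show 2 * k + 1 - 2 * p = 0 by omega, mul_zero]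

theorem rank_lamP_ge (j : ℕ) : lamP p q (p + j) = (p + q) * (2 * j + 1) := by
  rw [lamP, show 2 * (p + j) + 1 - 2 * p = 2 * j + 1 by omega]

theorem rank_lamM_lt (hk : k < p) : lamM p q k = (p + q) * (2 * k) := by
  rw [lamM, show min (2 * k) (2 * p - 1) = 2 * k by omega]

theorem rank_lamM_ge (hp : 0 < p) (hk : p ≤ k) : lamM p q k + (p + q) = (p + q) * (2 * p) := by
  rw [lamM, ← mul_add_one, show min (2 * k) (2 * p - 1) + 1 = 2 * p by omega]

theorem rkP_L (hp : 0 < p) (hk : p ≤ k) : rk (p + q) (lamP p q) 0 k ≤ k := by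
  refine rank_below fun x hx => ?_
  obtain ⟨-, h1, h2⟩ := mem_filter.1 hx
  simp only [zero_mul, zero_add, lamP] at h2
  have := Nat.le_of_mul_le_mul_left h2 (by omega)
  omega

theorem rkP_R (hk : k < p) : rk (p + q) (lamP p q) (2 * (p + q)) k + k + 1 ≤ p + q := by
  refine rank_above (by omega) fun x hx => ?_
  obtain ⟨h0, h1, h2⟩ := mem_filter.1 hx
  rw [rank_lamP_lt hk] at h2
  have := Nat.le_of_mul_le_mul_left (le_trans (Nat.le_add_right _ _) h2) (by omega)
  exact ⟨by omega, mem_range.1 h0⟩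

theorem rkP_gL (hq : 0 < q) (hk : k < p) :
    2 * p * rk (p + q) (lamP p q) (2 * q) k + 2 * k * (p + q) + p ≤ 2 * p * (p + q) := by
  rw [rk, rank_lamP_lt hk]
  rcases rank_max (s := (range (p + q)).filter fun k' => k' ≠ k ∧
    2 * q * k + lamP p q k' ≤ 2 * q * k' + 0) (k + 1) (fun x hx => by
      obtain ⟨h0, h1, h2⟩ := mem_filter.1 hx
      have := Nat.le_of_mul_le_mul_left (le_trans (Nat.le_add_right _ _) h2) (by omega)
      omega) with h | ⟨m, hm, h⟩
  · rw [h]
    nlinarith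
  · obtain ⟨-, -, h2⟩ := mem_filter.1 hm
    generalize Finset.card _ = c at h ⊢
    rcases lt_or_ge m p with g | g
    · have g1 : c + k + 1 ≤ p := by omega
      nlinarith [Nat.mul_le_mul_left p g1, Nat.mul_le_mul_left q hk.le]
    · obtain ⟨j, rfl⟩ := Nat.exists_eq_add_of_le g
      rw [rank_lamP_ge] at h2
      have g1 : c + k ≤ p + j := by omega
      nlinarith [Nat.mul_le_mul_left p g1]

theorem rkP_gR (hp : 0 < p) (hk : k < q) :
    2 * q * rk (p + q) (lamP p q) (2 * q) (p + k) ≤ 2 * k * (p + q) + (p + q) := by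
  rw [rk, rank_lamP_ge]
  rcases rank_min (s := (range (p + q)).filter fun k' => k' ≠ p + k ∧
    2 * q * (p + k) + lamP p q k' ≤ 2 * q * k' + (p + q) * (2 * k + 1)) (p + k) (fun x hx => by
      obtain ⟨h0, h1, h2⟩ := mem_filter.1 hx
      by_contra g
      obtain ⟨j, rfl⟩ := Nat.exists_eq_add_of_le (show p ≤ x by omega)
      rw [rank_lamP_ge] at h2
      have g1 : k + 1 ≤ j := by omega
      nlinarith [Nat.mul_le_mul_left p g1]) with h | ⟨m, hm, h⟩
  · rw [h]
    omega
  · obtain ⟨-, -, h2⟩ := mem_filter.1 hm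
    generalize Finset.card _ = c at h ⊢
    rcases lt_or_ge m p with g | g
    · rw [rank_lamP_lt g] at h2
      nlinarith [Nat.mul_le_mul_left q h]
    · have g1 : c ≤ k := by omega
      nlinarith [Nat.mul_le_mul_left q g1, Nat.zero_le (k * p)]

theorem rkM_L (hp : 0 < p) (hk : p ≤ k) (hk' : k < p + q) :
    rk (p + q) (lamM p q) (2 * (p + q)) k + k + 1 ≤ p + q := by
  refine rank_above hk' fun x hx => ?_
  obtain ⟨h0, h1, h2⟩ := mem_filter.1 hx
  refine ⟨?_, mem_range.1 h0⟩
  simp only [lamM, mul_comm 2 (p + q), mul_assoc, ← mul_add] at h2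
  have := Nat.le_of_mul_le_mul_left h2 (by omega)
  omega

theorem rkM_R (hk : k < p) : rk (p + q) (lamM p q) 0 k ≤ k := by
  refine rank_below fun x hx => ?_
  obtain ⟨-, h1, h2⟩ := mem_filter.1 hx
  simp only [zero_mul, zero_add, lamM] at h2
  have := Nat.le_of_mul_le_mul_left h2 (by omega)
  omega

theorem rkM_gL (hq : 0 < q) (hk : k < p) :
    2 * p * rk (p + q) (lamM p q) (2 * p) k ≤ 2 * k * (p + q) + (p + q) := by
  rw [rk, rank_lamM_lt hk]
  set s := (range (p + q)).filter fun k' => k' ≠ k ∧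
    2 * p * k + lamM p q k' ≤ 2 * p * k' + (p + q) * (2 * k) with hs
  rw [← card_filter_add_card_filter_not (s := s) (fun x => x < p)]
  have h1 : (s.filter fun x => x < p).card ≤ k := rank_below fun x hx => by
    obtain ⟨hx, g⟩ := mem_filter.1 hx
    obtain ⟨-, g1, g2⟩ := mem_filter.1 hx
    rw [rank_lamM_lt g] at g2
    by_contra g3
    have g4 : k + 1 ≤ x := by omega
    nlinarith [Nat.mul_le_mul_left q g4]
  generalize (s.filter fun x => x < p).card = c at h1 ⊢
  rcases rank_min (s := s.filter fun x => ¬ x < p) (p + q)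
    (fun x hx => mem_range.1 (mem_filter.1 (mem_filter.1 hx).1).1) with h | ⟨m, hm, h⟩
  · rw [h]
    nlinarith [Nat.mul_le_mul_left p h1, Nat.zero_le (k * q)]
  · obtain ⟨hm, g⟩ := mem_filter.1 hm
    obtain ⟨-, -, g2⟩ := mem_filter.1 hm
    have g3 := rank_lamM_ge (q := q) (by omega : 0 < p) (not_lt.1 g)
    generalize Finset.card _ = d at h ⊢
    nlinarith [Nat.mul_le_mul_left p h1, Nat.mul_le_mul_left p h]

theorem rkM_gR (hp : 0 < p) (hk : k < q) :
    2 * q * rk (p + q) (lamM p q) (2 * p) (p + k) + 2 * k * (p + q) + q ≤ 2 * q * (p + q) := by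
  rw [rk]
  have g0 := rank_lamM_ge (q := q) hp (Nat.le_add_right p k)
  set s := (range (p + q)).filter fun k' => k' ≠ p + k ∧
    2 * p * (p + k) + lamM p q k' ≤ 2 * p * k' + lamM p q (p + k) with hs
  rw [← card_filter_add_card_filter_not (s := s) (fun x => x < p)]
  have h1 : (s.filter fun x => ¬ x < p).card + (p + k) + 1 ≤ p + q :=
    rank_above (by omega) fun x hx => by
      obtain ⟨hx, g⟩ := mem_filter.1 hx
      obtain ⟨g4, g1, g2⟩ := mem_filter.1 hx
      have g3 := rank_lamM_ge (q := q) hp (not_lt.1 g)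
      have := Nat.le_of_mul_le_mul_left (show 2 * p * (p + k) ≤ 2 * p * x by omega) (by omega)
      exact ⟨by omega, mem_range.1 g4⟩
  generalize (s.filter fun x => ¬ x < p).card = c at h1 ⊢
  have h2 : c + k + 1 ≤ q := by omega
  rcases rank_max (s := s.filter fun x => x < p) 0 (fun x _ => Nat.zero_le x) with h | ⟨m, hm, h⟩
  · rw [h]
    nlinarith [Nat.mul_le_mul_left q h2, Nat.mul_le_mul_left p hk.le]
  · obtain ⟨hm, g⟩ := mem_filter.1 hm
    obtain ⟨-, -, g2⟩ := mem_filter.1 hm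
    rw [rank_lamM_lt g] at g2
    generalize Finset.card _ = d at h ⊢
    nlinarith [Nat.mul_le_mul_left q h2, Nat.mul_le_mul_left q h]

end Pool.Agent.Lib.MP_6e81d8_ag.H36
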