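import Pool.Agent.Lib.MP_6e81d8_ag.H36.Cut
import Pool.Agent.Lib.MP_6e81d8_ag.H36.LeafW
import Pool.Agent.Lib.MP_6e81d8_ag.H36.Rank

/-!
A component with one break: it is cut at the break into two leaves.
-/

set_option autoImplicit false

namespace Pool.Agent.Lib.MP_6e81d8_ag.H36

open Polynomial Finset H88

/-- The slope and capacity conditions of a component with `J` points of multiplicity `P`, `A + B + g`
residents and `e` nodes of slope `σ`. -/
structure Cap (P Q J A B g e : ℕ) (κ σ : ℝ) : Prop where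
  hP : 0 < P
  hQ : 0 < Q
  hκ : κ = A - B + J * (P + 1) / (P + Q) + e * σ
  c1 : (g : ℝ) * (P + Q) / P ≤ J * (Q - 1) / (P + Q)
  c2 : (J : ℝ) * (Q - 1) / (P + Q) ≤ 2 * A + g * (P + Q) / P
  c3 : (g : ℝ) * (P + Q) / Q ≤ J * (P + 1) / (P + Q)
  c4 : (J : ℝ) * (P + 1) / (P + Q) ≤ 2 * B + g * (P + Q) / Q
  fr : ((∀ y : ℤ, 1 ≤ g * |(y : ℝ) - (P + Q) / P|) ∧ ∀ y : ℤ, 1 ≤ g * |(y : ℝ) - (P + Q) / Q|) ∨
    ∀ y : ℤ, 1 ≤ e * |(y : ℝ) - σ|

theorem bubble_sub (m c : ℕ) : (m : ℝ) - c ≤ ((m - c : ℕ) : ℝ) := by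
  have : m ≤ (m - c) + c := by omega
  have h : (m : ℝ) ≤ ((m - c : ℕ) : ℝ) + c := by exact_mod_cast this
  linarith

theorem bubble_pred {m : ℕ} (h : 0 < m) : ((m - 1 : ℕ) : ℝ) = m - 1 := by
  rw [Nat.cast_sub h, Nat.cast_one]

theorem bubble_neg {g x : ℝ} (h : ∀ y : ℤ, 1 ≤ g * |(y : ℝ) - x|) (y : ℤ) :
    1 ≤ g * |(y : ℝ) - -x| := by
  have := h (-y)
  rwa [Int.cast_neg, ← abs_neg, show -(-(y : ℝ) - x) = y - -x by ring] at this

/-- The leaf on the part with `P` rows. -/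
theorem leaf_m {P Q J A B g e : ℕ} {κ σ : ℝ} (hc : Cap P Q J A B g e κ σ) {D : ℕ → ℕ → Prop}
    {φ : Fin 5 → ℕ → ℕ} {a z0 zA zB zn : ℝ} (hD : ∀ s k, D s k → k < P ∧ (s : ℝ) + κ * k ≤ a)
    (h0 : ∀ k < P, z0 - k ≤ φ 0 k) (hA : ∀ k < P, zA - k ≤ φ 1 k) (hB : ∀ k < P, zB + k ≤ φ 2 k)
    (hg : ∀ k < P, (k : ℝ) * (P + Q) / P - 1 / 2 ≤ φ 3 k) (hn : ∀ k < P, zn - σ * k ≤ φ 4 k)
    (hX : a - κ * (P - 1) / 2 < J * (z0 - (P - 1) / 2) + A * (zA - (P - 1) / 2) +
      B * (zB + (P - 1) / 2) + g * ((P + Q - 1) / 2 - (P + Q) / (2 * P)) +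
      e * (zn - σ * (P - 1) / 2)) :
    GE D (fun x : Σ τ : Fin 5, Fin (![J, A, B, g, e] τ) => φ x.1)
      (fun x => ![false, true, false, false, false] x.1) := by
  have hP := hc.hP
  have hP' : (0 : ℝ) < P := by exact_mod_cast hP
  have hQ' : (0 : ℝ) < Q := by exact_mod_cast hc.hQ
  have e1 : (J : ℝ) * (Q - 1) / (P + Q) = J - J * (P + 1) / (P + Q) := by field_simp; ring
  have c1 := hc.c1
  have c2 := hc.c2
  have hκ := hc.hκ
  have e2 : (g : ℝ) * -((P + Q) / P) = -(g * (P + Q) / P) := by ring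
  refine ge_leafT ![J, A, B, g, e] (P - 1) κ a ![1, 1, -1, -((P + Q) / P), σ]
    ![z0, zA, zB, -(1 / 2), zn] (fun i k h => ⟨by have := (hD i k h).1; omega, (hD i k h).2⟩)
    (fun τ => by fin_cases τ <;> simp) (fun τ k hk => ?_) ?_ ?_ ?_ ?_
  · have hk' : k < P := by omega
    fin_cases τ
    · simpa using h0 k hk'
    · simpa using hA k hk'
    · simpa using hB k hk'
    · have := hg k hk'
      simp only [Fin.reduceFinMk, Matrix.cons_val]
      have e3 : (k : ℝ) * (P + Q) / P = (P + Q) / P * k := by ring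
      linarith
    · simpa using hn k hk'
  · simp only [Fin.sum_univ_five, Matrix.cons_val]
    linarith
  · simp only [Fin.sum_univ_five, Matrix.cons_val]
    simp only [Bool.false_eq_true, if_false, if_true]
    linarith
  · rcases hc.fr with h | h
    · exact ⟨3, bubble_neg h.1⟩
    · exact ⟨4, h⟩
  · simp only [Fin.sum_univ_five, Matrix.cons_val]
    rw [bubble_pred hP]
    have e3 : (g : ℝ) * ((P + Q - 1) / 2 - (P + Q) / (2 * P)) =
        g * -(1 / 2) - (P - 1) * (g * -((P + Q) / P)) / 2 := by field_simp; ring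
    linarith

/-- The leaf on the part with `Q` rows. -/
theorem leaf_o {P Q J A B g e : ℕ} {κ σ : ℝ} (hc : Cap P Q J A B g e κ σ) {D : ℕ → ℕ → Prop}
    {φ : Fin 5 → ℕ → ℕ} {a z0 zA zB zn : ℝ} (hD : ∀ s k, D s k → k < Q ∧ (s : ℝ) + κ * k ≤ a)
    (h0 : ∀ k < Q, z0 ≤ φ 0 k) (hA : ∀ k < Q, zA - k ≤ φ 1 k) (hB : ∀ k < Q, zB - k ≤ φ 2 k)
    (hg : ∀ k < Q, (P + Q - 1 : ℝ) - (P + Q) / (2 * Q) - k * (P + Q) / Q ≤ φ 3 k)
    (hn : ∀ k < Q, zn - σ * k ≤ φ 4 k)
    (hX : a - κ * (Q - 1) / 2 < J * z0 + A * (zA - (Q - 1) / 2) +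
      B * (zB - (Q - 1) / 2) + g * ((P + Q - 1) / 2 - 1 / 2) + e * (zn - σ * (Q - 1) / 2)) :
    GE D (fun x : Σ τ : Fin 5, Fin (![J, A, B, g, e] τ) => φ x.1)
      (fun x => ![false, false, true, false, false] x.1) := by
  have hQ := hc.hQ
  have hP' : (0 : ℝ) < P := by exact_mod_cast hc.hP
  have hQ' : (0 : ℝ) < Q := by exact_mod_cast hQ
  have c3 := hc.c3
  have c4 := hc.c4
  have hκ := hc.hκ
  have e2 : (g : ℝ) * ((P + Q) / Q) = g * (P + Q) / Q := by ring
  refine ge_leafT ![J, A, B, g, e] (Q - 1) κ a ![0, 1, 1, (P + Q) / Q, σ]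
    ![z0, zA, zB, (P + Q - 1 : ℝ) - (P + Q) / (2 * Q), zn]
    (fun i k h => ⟨by have := (hD i k h).1; omega, (hD i k h).2⟩)
    (fun τ => by fin_cases τ <;> simp) (fun τ k hk => ?_) ?_ ?_ ?_ ?_
  · have hk' : k < Q := by omega
    fin_cases τ
    · simpa using h0 k hk'
    · simpa using hA k hk'
    · simpa using hB k hk'
    · have := hg k hk'
      simp only [Fin.reduceFinMk, Matrix.cons_val]
      have e3 : (k : ℝ) * (P + Q) / Q = (P + Q) / Q * k := by ring
      linarith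
    · simpa using hn k hk'
  · simp only [Fin.sum_univ_five, Matrix.cons_val]
    linarith
  · simp only [Fin.sum_univ_five, Matrix.cons_val]
    simp only [Bool.false_eq_true, if_false, if_true]
    linarith
  · rcases hc.fr with h | h
    · exact ⟨3, h.2⟩
    · exact ⟨4, h⟩
  · simp only [Fin.sum_univ_five, Matrix.cons_val]
    rw [bubble_pred hQ]
    have e3 : (g : ℝ) * ((P + Q - 1) / 2 - 1 / 2) =
        g * ((P + Q - 1 : ℝ) - (P + Q) / (2 * Q)) - (Q - 1) * (g * ((P + Q) / Q)) / 2 := by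
      field_simp; ring
    linarith

theorem bubble_bdd {D : ℕ → ℕ → Prop} (hD : Bdd D) (p : ℕ) :
    Bdd (fun s k => k < p ∧ D s k) ∧ Bdd fun s k => D s (p + k) := by
  obtain ⟨N, hN⟩ := hD
  exact ⟨⟨N, fun i k h => hN i k h.2⟩, N, fun i k h => by have := hN i _ h; omega⟩

theorem bubble_g1 {P Q k r : ℕ} (hP : 0 < P)
    (h : 2 * P * r + 2 * k * (P + Q) + P ≤ 2 * P * (P + Q)) :
    (k : ℝ) * (P + Q) / P - 1 / 2 ≤ ((P + Q - 1 - r : ℕ) : ℝ) := by
  have hP' : (0 : ℝ) < P := by exact_mod_cast hP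
  have h1 := bubble_sub (P + Q - 1) r
  rw [bubble_pred (by omega)] at h1
  have h2 : (2 * P * r + 2 * k * (P + Q) + P : ℝ) ≤ 2 * P * (P + Q) := by exact_mod_cast h
  have h3 : (k : ℝ) * (P + Q) / P ≤ P + Q - 1 / 2 - r := by
    rw [div_le_iff₀ hP']
    linarith
  push_cast at h1
  linarith

theorem bubble_g2 {P Q k r : ℕ} (hQ : 0 < Q) (h : 2 * Q * r ≤ 2 * k * (P + Q) + (P + Q)) :
    (P + Q - 1 : ℝ) - (P + Q) / (2 * Q) - k * (P + Q) / Q ≤ ((P + Q - 1 - r : ℕ) : ℝ) := by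
  have hQ' : (0 : ℝ) < Q := by exact_mod_cast hQ
  have h1 := bubble_sub (P + Q - 1) r
  rw [bubble_pred (by omega)] at h1
  have h2 : (2 * Q * r : ℝ) ≤ 2 * k * (P + Q) + (P + Q) := by exact_mod_cast h
  have h3 : (r : ℝ) ≤ (P + Q) / (2 * Q) + k * (P + Q) / Q := by
    rw [show ((P : ℝ) + Q) / (2 * Q) + k * (P + Q) / Q = (2 * k * (P + Q) + (P + Q)) / (2 * Q) by
      field_simp; ring, le_div_iff₀ (by positivity)]
    linarith
  push_cast at h1
  linarith

theorem bubble_le {x : ℝ} {a b : ℕ} (h : a ≤ b) (hx : x ≤ a) : x ≤ b :=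
  hx.trans (by exact_mod_cast h)

theorem bubble_plus {P Q J A B g e : ℕ} {κ σ a z : ℝ} (hc : Cap P Q J A B g e κ σ)
    {D : ℕ → ℕ → Prop} (hD : Bdd D) (hD' : ∀ s k, D s k → k < P + Q ∧ (s : ℝ) + κ * k ≤ a)
    {ψ : ℕ → ℕ} (hψ : ∀ k < P + Q, z - σ * k ≤ ψ k)
    (ha : a + g * (P + Q) / (2 * P) < κ * (P + Q - 1) / 2 + J * (P * (P + 1) / (2 * (P + Q))) +
      (A + B + g) * (P + Q - 1) / 2 + e * (z - σ * (P + Q - 1) / 2)) :
    GE D (fun x : Σ τ : Fin 5, Fin (![J, A, B, g, e] τ) =>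
        ![fun k => P - k, fun k => P + Q - 1 - k, fun k => P + Q - 1 - k, fun k => P + Q - 1 - k, ψ]
          x.1)
      (fun x => ![false, true, true, true, false] x.1) := by
  have hP := hc.hP
  have hQ := hc.hQ
  have hP' : (0 : ℝ) < P := by exact_mod_cast hP
  have hQ' : (0 : ℝ) < Q := by exact_mod_cast hQ
  have hκ := hc.hκ
  have hg0 : (g : ℝ) / 2 ≤ g * (P + Q) / (2 * P) := by
    rw [div_le_div_iff₀ (by positivity) (by positivity)]
    have : (0 : ℝ) ≤ g * Q := by positivity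
    linarith
  obtain ⟨b1, b2⟩ := bubble_bdd hD P
  refine hcut (p := P) (q := Q) hD b1 b2 (fun i k h => (hD' i k h).1) (fun i k h1 h2 => ⟨h1, h2⟩)
    (fun i k h => h)
    (φL := fun x => ![fun k => P - k, fun k => P + Q - 1 - k,
      fun k => P + Q - 1 - rk (P + Q) (lamP P Q) (2 * (P + Q)) k,
      fun k => P + Q - 1 - rk (P + Q) (lamP P Q) (2 * Q) k, ψ] x.1)
    (φR := fun x => ![fun _ => 0, fun k => P + Q - 1 - rk (P + Q) (lamP P Q) 0 (P + k),
      fun k => P + Q - 1 - k, fun k => P + Q - 1 - rk (P + Q) (lamP P Q) (2 * Q) (P + k),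
      fun k => ψ (P + k)] x.1)
    (JL := fun x => ![false, true, false, false, false] x.1)
    (JR := fun x => ![false, false, true, false, false] x.1) (P + Q - 1) (lamP P Q)
    (fun x => ![0, 0, 2 * (P + Q), 2 * Q, 0] x.1) ∅ ∅ (by simp) (by simp) ?_ ?_ ?_ ?_ ?_ ?_ ?_ ?_
  · rintro ⟨τ, i⟩
    fin_cases τ <;> simp
  · rintro ⟨τ, i⟩
    fin_cases τ <;> simp
  · rintro ⟨τ, i⟩
    fin_cases τ <;> simp
    refine ⟨fun k hk => ?_, fun k _ hk => ?_⟩
    · simp only [lamP]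
      rw [show 2 * 0 + 1 - 2 * P = 0 by omega, show 2 * k + 1 - 2 * P = 0 by omega]
    · simp only [lamP]
      rw [show 2 * 0 + 1 - 2 * P = 0 by omega, mul_zero]
      exact Nat.mul_pos (by omega) (by omega)
  · rintro ⟨τ, i⟩
    fin_cases τ <;> simp
  · rintro ⟨τ, i⟩
    fin_cases τ <;> simp
    refine ⟨fun k hk => ?_, fun k hk => ?_⟩
    · simp only [lamP]
      rw [show 2 * P + 1 - 2 * P = 1 by omega, show 2 * (P + k) + 1 - 2 * P = 2 * k + 1 by omega]
      ring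
    · simp only [lamP]
      rw [show 2 * P + 1 - 2 * P = 1 by omega, show 2 * k + 1 - 2 * P = 0 by omega]
      have := Nat.mul_le_mul_left (2 * (P + Q)) hk
      nlinarith
  · rintro ⟨τ, i⟩
    fin_cases τ <;> simp
  · refine leaf_m hc (a := a) (z0 := P) (zA := P + Q - 1) (zB := 0) (zn := z)
      (fun s k h => ⟨h.1, (hD' s k h.2).2⟩) (fun k hk => bubble_sub P k) (fun k hk => ?_)
      (fun k hk => ?_) (fun k hk => bubble_g1 hP (rkP_gL hQ hk)) (fun k hk => hψ k (by omega)) ?_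
    · have := bubble_sub (P + Q - 1) k
      rw [bubble_pred (by omega)] at this
      push_cast at this
      exact this
    · have := rkP_R (q := Q) hk
      exact bubble_le (a := k) (by simp only [Matrix.cons_val]; omega) (by simp)
    · have e1 : (J : ℝ) * (P * (P + 1) / (2 * (P + Q))) + J * (P + 1) / (P + Q) * Q / 2 =
          J * (P - (P - 1) / 2) := by field_simp; ring
      have e2 : (g : ℝ) * ((P + Q) / (2 * P)) = g * (P + Q) / (2 * P) := by ring
      rw [hκ] at ha ⊢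
      linarith
  · refine leaf_o hc (a := a - κ * P) (z0 := 0) (zA := Q - 1) (zB := P + Q - 1) (zn := z - σ * P)
      (fun s k h => ⟨by have := (hD' s _ h).1; omega, by
        have := (hD' s _ h).2; push_cast at this; linarith⟩)
      (fun k hk => by simp) (fun k hk => ?_) (fun k hk => ?_)
      (fun k hk => bubble_g2 hQ (rkP_gR hP hk)) (fun k hk => ?_) ?_
    · have h1 := rkP_L (q := Q) hP (Nat.le_add_right P k)
      have h2 := bubble_sub (Q - 1) k
      rw [bubble_pred hQ] at h2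
      exact bubble_le (a := Q - 1 - k) (by simp only [Matrix.cons_val]; omega) h2
    · have := bubble_sub (P + Q - 1) k
      rw [bubble_pred (by omega)] at this
      push_cast at this
      exact this
    · have := hψ (P + k) (by omega)
      push_cast at this
      simp only [Matrix.cons_val]
      linarith
    · have e1 : (J : ℝ) * (P * (P + 1) / (2 * (P + Q))) = J * (P + 1) / (P + Q) * P / 2 := by
        field_simp
      rw [hκ] at ha ⊢
      linarith

theorem bubble_minus {P Q J A B g e : ℕ} {κ σ a z : ℝ} (hc : Cap P Q J A B g e κ σ)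
    {D : ℕ → ℕ → Prop} (hD : Bdd D) (hD' : ∀ s k, D s k → k < P + Q ∧ (s : ℝ) + κ * k ≤ a)
    {ψ : ℕ → ℕ} (hψ : ∀ k < P + Q, z - σ * k ≤ ψ k)
    (ha : a + g * (P + Q) / (2 * P) < κ * (P + Q - 1) / 2 +
      J * (P - P * (P + 1) / (2 * (P + Q))) +
      (A + B + g) * (P + Q - 1) / 2 + e * (z - σ * (P + Q - 1) / 2)) :
    GE D (fun x : Σ τ : Fin 5, Fin (![J, A, B, g, e] τ) =>
        ![fun k => min P (P + Q - 1 - k), fun k => P + Q - 1 - k, fun k => P + Q - 1 - k,
          fun k => P + Q - 1 - k, ψ] x.1)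
      (fun x => ![false, true, true, true, false] x.1) := by
  have hP := hc.hP
  have hQ := hc.hQ
  have hP' : (0 : ℝ) < P := by exact_mod_cast hP
  have hQ' : (0 : ℝ) < Q := by exact_mod_cast hQ
  have hκ := hc.hκ
  have hg0 : (g : ℝ) / 2 ≤ g * (P + Q) / (2 * P) := by
    rw [div_le_div_iff₀ (by positivity) (by positivity)]
    have : (0 : ℝ) ≤ g * Q := by positivity
    linarith
  obtain ⟨b1, b2⟩ := bubble_bdd hD Q
  have hc' : Q + P = P + Q := add_comm _ _
  refine hcut (p := Q) (q := P) hD b1 b2 (fun i k h => by have := (hD' i k h).1; omega)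
    (fun i k h1 h2 => ⟨h1, h2⟩) (fun i k h => h)
    (φL := fun x => ![fun _ => P, fun k => P + Q - 1 - rk (Q + P) (lamM Q P) 0 k,
      fun k => Q - 1 - k, fun k => P + Q - 1 - rk (Q + P) (lamM Q P) (2 * Q) k, ψ] x.1)
    (φR := fun x => ![fun k => P - 1 - k, fun k => P - 1 - k,
      fun k => P + Q - 1 - rk (Q + P) (lamM Q P) (2 * (Q + P)) (Q + k),
      fun k => P + Q - 1 - rk (Q + P) (lamM Q P) (2 * Q) (Q + k), fun k => ψ (Q + k)] x.1)
    (JL := fun x => ![false, false, true, false, false] x.1)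
    (JR := fun x => ![false, true, false, false, false] x.1) (P + Q - 1) (lamM Q P)
    (fun x => ![0, 0, 2 * (Q + P), 2 * Q, 0] x.1) (Ico Q (Q + P)) (range Q)
    (fun u hu => (mem_Ico.1 hu).1) (by simp) ?_ ?_ ?_ ?_ ?_ ?_ ?_ ?_
  · rintro ⟨τ, i⟩
    fin_cases τ <;> simp
    exact ⟨fun k hk => by omega, fun k hk => by omega⟩
  · rintro ⟨τ, i⟩
    fin_cases τ <;> simp
  · rintro ⟨τ, i⟩
    fin_cases τ <;> simp
    refine ⟨fun k hk => ?_, fun k h1 h2 h3 => by omega, fun k hk => by omega⟩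
    simp only [lamM]
    rw [min_eq_left (show 2 * k ≤ 2 * Q - 1 by omega)]
    simp
    ring
  · rintro ⟨τ, i⟩
    fin_cases τ <;> simp
  · rintro ⟨τ, i⟩
    fin_cases τ <;> simp
    refine ⟨fun k hk => ?_, fun k h1 h2 => by omega, fun k hk => by omega⟩
    simp only [lamM]
    rw [min_eq_right (show 2 * Q - 1 ≤ 2 * Q by omega),
      min_eq_right (show 2 * Q - 1 ≤ 2 * (Q + k) by omega)]
  · rintro ⟨τ, i⟩
    fin_cases τ <;> simp
  · refine leaf_o hc (a := a) (z0 := P) (zA := P + Q - 1) (zB := Q - 1) (zn := z)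
      (fun s k h => ⟨h.1, (hD' s k h.2).2⟩) (fun k hk => by simp) (fun k hk => ?_)
      (fun k hk => ?_) (fun k hk => bubble_g2 hQ (hc' ▸ rkM_gL hP hk))
      (fun k hk => hψ k (by omega)) ?_
    · have h1 := rkM_R (q := P) hk
      have h2 := bubble_sub (P + Q - 1) k
      rw [bubble_pred (by omega)] at h2
      push_cast at h2
      exact bubble_le (a := P + Q - 1 - k) (by simp only [Matrix.cons_val]; omega) h2
    · have := bubble_sub (Q - 1) k
      rw [bubble_pred hQ] at this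
      exact this
    · have e1 : (J : ℝ) * (P * (P + 1) / (2 * (P + Q))) = J * (P + 1) / (P + Q) * P / 2 := by
        field_simp
      rw [hκ] at ha ⊢
      linarith
  · have h0 : ∀ k : ℕ, (P : ℝ) - 1 - k ≤ ((P - 1 - k : ℕ) : ℝ) := fun k => by
      have := bubble_sub (P - 1) k
      rwa [bubble_pred hP] at this
    refine leaf_m hc (a := a - κ * Q) (z0 := P - 1) (zA := P - 1) (zB := Q) (zn := z - σ * Q)
      (fun s k h => ⟨by have := (hD' s _ h).1; omega, by
        have := (hD' s _ h).2; push_cast at this; linarith⟩)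
      (fun k hk => h0 k) (fun k hk => h0 k) (fun k hk => ?_) (fun k hk => ?_) (fun k hk => ?_) ?_
    · have h1 := rkM_L (q := P) hQ (Nat.le_add_right Q k) (by omega)
      exact bubble_le (a := Q + k) (by simp only [Matrix.cons_val]; omega) (by simp)
    · have h1 := rkM_gR (q := P) hQ hk
      exact bubble_g1 hP (by rw [← hc']; exact h1)
    · have := hψ (Q + k) (by omega)
      push_cast at this
      simp only [Matrix.cons_val]
      linarith
    · have e1 : (J : ℝ) * (P * (P + 1) / (2 * (P + Q))) + J * (P + 1) / (P + Q) * Q / 2 =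
          J * (P - (P - 1) / 2) := by field_simp; ring
      have e2 : (g : ℝ) * ((P + Q) / (2 * P)) = g * (P + Q) / (2 * P) := by ring
      rw [hκ] at ha ⊢
      linarith

end Pool.Agent.Lib.MP_6e81d8_ag.H36
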