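import Pool.Agent.Lib.MP_6e81d8_ag.H36.Lead

/-!
The horizontal cut: the rows below `p` and the rows from `p` on are separated.
-/

set_option autoImplicit false

namespace Pool.Agent.Lib.MP_6e81d8_ag.H36

open Polynomial Finset H88
open scoped Polynomial.Bivariate

theorem cut_cancel_gen {A : Type} [CommRing A] (I : Ideal A) (μ : ℕ) {G c F : A} (hc : IsUnit c)
    (h1 : G - c ∈ I) (hF : G * F ∈ I ^ μ) : F ∈ I ^ μ := by
  have h2 : IsNilpotent (Ideal.Quotient.mk (I ^ μ) (G - c)) :=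
    ⟨μ, by rw [← map_pow, Ideal.Quotient.eq_zero_iff_mem]; exact Ideal.pow_mem_pow h1 μ⟩
  have h4 := h2.isUnit_add_right_of_commute (hc.map (Ideal.Quotient.mk (I ^ μ))) (Commute.all _ _)
  rw [← map_add, sub_add_cancel] at h4
  rw [← Ideal.Quotient.eq_zero_iff_mem] at hF ⊢
  rw [map_mul] at hF
  exact h4.mul_right_eq_zero.mp hF

theorem cut_cancelY {K : Type} [Field K] {n : ℕ} {x c : K} (hc : c ≠ 0) (p : ℕ) {f : K[X][Y]}
    (h : H88.Van n x c (Y ^ p * f)) : H88.Van n x c f := by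
  have h1 := sub_mem_mx x c (Y ^ p : K[X][Y])
  have h2 : (Y ^ p : K[X][Y]).evalEval x c = c ^ p := by simp [evalEval]
  rw [h2] at h1
  exact cut_cancel_gen (H88.mx x c) n (((IsUnit.mk0 _ (pow_ne_zero p hc)).map C).map C) h1 h

theorem cut_row {K : Type} [Field K] {n k : ℕ} {x c w : K} (hc : c ≠ 0) (hw : w ≠ 0) {g : K[X]}
    (h : H88.Van n x c (monomial k (C w * g))) : (X - C x) ^ n ∣ g := by
  have h1 : (monomial k (C w * g) : K[X][Y]) = Y ^ k * (C (C w) * C g) := by
    rw [← C_mul, mul_comm (Y ^ k : K[X][Y]), C_mul_X_pow_eq_monomial]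
  rw [h1] at h
  have h2 := van_cancel hw (cut_cancelY hc k h)
  have h3 := (cnd_iff_dvd.mp (cnd_iff_van.mpr h2)) 0
  simpa using h3

theorem cut_coeff {K : Type} [Field K] (p : ℕ) (r : ℕ → K[X]) (k : ℕ) :
    (∑ l ∈ range p, monomial l (r l) : K[X][Y]).coeff k = if k < p then r k else 0 := by
  rw [finsetSum_coeff]
  simp only [coeff_monomial]
  rw [Finset.sum_ite_eq' (range p) k]
  simp

theorem cut_shift {K : Type} [Field K] (p q : ℕ) (r : ℕ → K[X]) :
    (∑ l ∈ Ico p (p + q), monomial l (r l) : K[X][Y])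
      = Y ^ p * ∑ l ∈ range q, monomial l (r (p + l)) := by
  rw [Finset.sum_Ico_eq_sum_range, Nat.add_sub_cancel_left, Finset.mul_sum]
  apply Finset.sum_congr rfl
  intro l _
  rw [← C_mul_X_pow_eq_monomial, ← C_mul_X_pow_eq_monomial, pow_add]
  ring

theorem cut_wall {K : Type} [Field K] {p : ℕ} {r : ℕ → K[X]} {φ : ℕ → ℕ} {x : K}
    (h : ∀ k < p, (X - C x) ^ φ k ∣ r k) :
    Cnd φ x 0 (∑ l ∈ range p, monomial l (r l) : K[X][Y]) := by
  rw [cnd_wall]
  intro k
  rw [cut_coeff]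
  split_ifs with hk
  · exact h k hk
  · exact dvd_zero _

theorem cut_res {K : Type} [Field K] {p n : ℕ} {r : ℕ → K[X]} {φ : ℕ → ℕ} {x c : K}
    (h : H88.Van n x c (∑ l ∈ range p, monomial l (r l) : K[X][Y])) (hφ : ∀ k < p, φ k ≤ n - k) :
    Cnd φ x c (∑ l ∈ range p, monomial l (r l) : K[X][Y]) := by
  refine Cnd.mono (H := p) ?_ hφ (cnd_iff_van.mpr h)
  intro i k hk
  by_contra hkp
  apply hk
  rw [H88.cf, cut_coeff, if_neg hkp, coeff_zero]

theorem cut_prod_ne (k : ℕ) (U : Finset ℕ) (h : ∀ u ∈ U, u ≠ k) :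
    (∏ u ∈ U, ((k : ℚ) - u)) ≠ 0 := by
  rw [Finset.prod_ne_zero_iff]
  intro u hu h0
  have h1 : (k : ℚ) = u := sub_eq_zero.mp h0
  exact h u hu (by exact_mod_cast h1.symm)

theorem cut_sup {p : ℕ} {g : ℕ → ℚ[X]} {w : ℕ → ℚ} {D : ℕ → ℕ → Prop}
    (h : ∀ k < p, ∀ i, (g k).coeff i ≠ 0 → D i k) :
    Sup D (∑ l ∈ range p, monomial l (C (w l) * g l) : ℚ[X][Y]) := by
  intro i k hk
  rw [H88.cf, cut_coeff] at hk
  split_ifs at hk with hkp
  · rw [coeff_C_mul] at hk
    exact h k hkp i (right_ne_zero_of_mul hk)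
  · simp at hk

theorem cut_ne {p k : ℕ} {g : ℕ → ℚ[X]} {w : ℕ → ℚ} (hk : k < p) (hw : w k ≠ 0) (hg : g k ≠ 0) :
    (∑ l ∈ range p, monomial l (C (w l) * g l) : ℚ[X][Y]) ≠ 0 := by
  intro h0
  have h1 := cut_coeff p (fun l => C (w l) * g l) k
  rw [h0, coeff_zero, if_pos hk] at h1
  exact mul_ne_zero (C_ne_zero.mpr hw) hg h1.symm

theorem hcut {ι : Type} [Fintype ι] {p q : ℕ} {D DL DR : ℕ → ℕ → Prop} (hD : Bdd D)
    (hL : Bdd DL) (hR : Bdd DR) (hrow : ∀ i k, D i k → k < p + q)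
    (hDL : ∀ i k, k < p → D i k → DL i k) (hDR : ∀ i k, D i (p + k) → DR i k)
    {φ φL φR : ι → ℕ → ℕ} {J JL JR : ι → Bool} (μ : ℕ) (lam : ℕ → ℕ) (v : ι → ℕ)
    (UL UR : Finset ℕ) (hUL : ∀ u ∈ UL, p ≤ u) (hUR : ∀ u ∈ UR, u < p)
    (hw : ∀ j, J j = false → JL j = false ∧ JR j = false ∧ (∀ k < p, φL j k ≤ φ j k) ∧
      ∀ k < q, φR j k ≤ φ j (p + k))
    (hμ : ∀ j, J j = true → ∀ k, μ - k ≤ φ j k)
    (l1 : ∀ j, JL j = true → (∀ k < p, v j * k + lam 0 = lam k) ∧
      (∀ k < p + q, p ≤ k → k ∉ UL → v j * k + lam 0 < lam k) ∧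
      ∀ k < p, φL j k ≤ μ - UL.card - k)
    (l2 : ∀ j, J j = true → JL j = false → ∀ k < p, φL j k ≤ μ - rk (p + q) lam (v j) k)
    (r1 : ∀ j, JR j = true → (∀ k < q, v j * (p + k) + lam p = v j * p + lam (p + k)) ∧
      (∀ k < p, k ∉ UR → v j * k + lam p < v j * p + lam k) ∧
      ∀ k < q, φR j k ≤ μ - UR.card - k)
    (r2 : ∀ j, J j = true → JR j = false → ∀ k < q,
      φR j k ≤ μ - rk (p + q) lam (v j) (p + k))
    (gL : GE DL φL JL) (gR : GE DR φR JR) : GE D φ J := by
  classical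
  obtain ⟨a, c, -, hc, eL, eR⟩ := GE.both hL hR gL gR
  refine ge_of_family hD (a := fun j => C (a j))
    (b := fun j => if J j then C (c j) * X ^ v j else 0) (fun j hj => by simp [hj]) ?_
  intro G hS hC
  by_contra hG
  obtain ⟨g, ⟨k, hk, hgk⟩, hcf, hwall, hres⟩ :=
    lead (p + q) lam G hG (fun i k h => hrow i k (hS i k h))
  have hW : ∀ j, J j = false → ∀ k, (X - C (a j)) ^ φ j k ∣ g k := by
    intro j hj
    apply hwall
    have := hC j
    simpa [hj] using this
  have hV : ∀ j, J j = true → H88.Van μ (C (a j)) (C (c j) * X ^ v j) G := by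
    intro j hj
    have h1 := hC j
    simp only [hj, if_true] at h1
    apply cnd_iff_van.mp
    intro i k hik
    exact h1 i k (lt_of_lt_of_le hik (hμ j hj k))
  have hN : ∀ j, J j = true → ∀ k,
      (X - C (a j)) ^ (μ - rk (p + q) lam (v j) k) ∣ g k := by
    intro j hj k
    have h1 := hres μ (v j) k (a j) (c j) {k}
      ((range (p + q)).filter fun k' => k' ≠ k ∧ v j * k + lam k' ≤ v j * k' + lam k) (hV j hj)
      (fun l hl => by rw [mem_singleton.mp hl]) (by
        intro l hl h2 h3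
        rw [mem_singleton] at h2
        rw [mem_filter, mem_range] at h3
        by_contra h4
        exact h3 ⟨hl, h2, not_lt.mp h4⟩)
    rw [Finset.sum_singleton] at h1
    exact cut_row (hc j) (cut_prod_ne k _ (fun u hu => (mem_filter.mp hu).2.1)) h1
  by_cases hkp : k < p
  · refine cut_ne (w := fun l => ∏ u ∈ UL, ((l : ℚ) - u)) hkp
      (cut_prod_ne k UL (fun u hu => by have := hUL u hu; omega)) hgk (eL _ ?_ ?_)
    · exact cut_sup (fun l hl i hi => hDL i l hl (hS i l (hcf l i hi)))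
    · intro j
      rcases hJ : J j with _ | _
      · obtain ⟨h1, -, h2, -⟩ := hw j hJ
        simp only [h1, Bool.false_eq_true, if_false]
        exact cut_wall (fun l hl =>
          ((pow_dvd_pow _ (h2 l hl)).trans (hW j hJ l)).mul_left _)
      · rcases Bool.eq_false_or_eq_true (JL j) with hJL | hJL
        swap
        · simp only [hJL, Bool.false_eq_true, if_false]
          exact cut_wall (fun l hl =>
            ((pow_dvd_pow _ (l2 j hJ hJL l hl)).trans (hN j hJ l)).mul_left _)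
        · simp only [hJL, if_true]
          obtain ⟨h1, h2, h3⟩ := l1 j hJL
          refine cut_res (n := μ - UL.card) ?_ h3
          refine hres μ (v j) 0 (a j) (c j) (range p) UL (hV j hJ) ?_ ?_
          · intro l hl
            rw [h1 l (mem_range.mp hl), Nat.mul_zero, Nat.zero_add]
          · intro l hl h4 h5
            rw [mem_range, not_lt] at h4
            rw [Nat.mul_zero, Nat.zero_add]
            exact h2 l hl h4 h5
  · obtain ⟨k', rfl⟩ := Nat.exists_eq_add_of_le (not_lt.mp hkp)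
    refine cut_ne (p := q) (k := k') (g := fun l => g (p + l))
      (w := fun l => ∏ u ∈ UR, (((p + l : ℕ) : ℚ) - u)) (by omega)
      (cut_prod_ne (p + k') UR (fun u hu => by have := hUR u hu; omega)) hgk (eR _ ?_ ?_)
    · exact cut_sup (g := fun l => g (p + l))
        (fun l _ i hi => hDR i l (hS i (p + l) (hcf (p + l) i hi)))
    · intro j
      rcases hJ : J j with _ | _
      · obtain ⟨-, h1, -, h2⟩ := hw j hJ
        simp only [h1, Bool.false_eq_true, if_false]
        exact cut_wall (fun l hl =>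
          ((pow_dvd_pow _ (h2 l hl)).trans (hW j hJ (p + l))).mul_left _)
      · rcases Bool.eq_false_or_eq_true (JR j) with hJR | hJR
        swap
        · simp only [hJR, Bool.false_eq_true, if_false]
          exact cut_wall (fun l hl =>
            ((pow_dvd_pow _ (r2 j hJ hJR l hl)).trans (hN j hJ (p + l))).mul_left _)
        · simp only [hJR, if_true]
          obtain ⟨h1, h2, h3⟩ := r1 j hJR
          refine cut_res (n := μ - UR.card) ?_ h3
          apply cut_cancelY (hc j) p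
          have h6 := cut_shift p q (fun l => C (∏ u ∈ UR, ((l : ℚ) - u)) * g l)
          rw [← h6]
          refine hres μ (v j) p (a j) (c j) (Ico p (p + q)) UR (hV j hJ) ?_ ?_
          · intro l hl
            obtain ⟨h4, h5⟩ := mem_Ico.mp hl
            obtain ⟨l', rfl⟩ := Nat.exists_eq_add_of_le h4
            exact h1 l' (by omega)
          · intro l hl h4 h5
            rw [mem_Ico] at h4
            exact h2 l (by omega) h5

end Pool.Agent.Lib.MP_6e81d8_ag.H36
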