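import Pool.Agent.Lib.MP_6e81d8_ag.H88Limit

/-!
Places with a load on every row, and emptiness of the system they cut out.
-/

set_option autoImplicit false

namespace Pool.Agent.Lib.MP_6e81d8_ag.H36

open Polynomial Finset H88
open scoped Polynomial.Bivariate

/-- Row `k` of `f`, expanded at the point `(a, b)`, vanishes to order `φ k`. -/
def Cnd {A : Type} [CommRing A] (φ : ℕ → ℕ) (a b : A) (f : A[X][Y]) : Prop :=
  ∀ i k, i < φ k → H88.cf (H88.sh a b f) i k = 0

/-- No nonzero polynomial with monomials in `D` satisfies all the conditions. -/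
def EmpC {A ι : Type} [CommRing A] (D : ℕ → ℕ → Prop) (φ : ι → ℕ → ℕ) (a b : ι → A) : Prop :=
  ∀ f : A[X][Y], Sup D f → (∀ j, Cnd (φ j) (a j) (b j) f) → f = 0

/-- Emptiness at some position; the places outside `J` lie on the wall `Y = 0`. -/
def GE {ι : Type} (D : ℕ → ℕ → Prop) (φ : ι → ℕ → ℕ) (J : ι → Bool) : Prop :=
  ∃ a b : ι → ℚ, (∀ j, J j = false → b j = 0) ∧ EmpC D φ a b

/-- The number of other rows that a point of speed `v` ranks at least as high as the row `k`. -/
def rk (H : ℕ) (lam : ℕ → ℕ) (v k : ℕ) : ℕ :=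
  ((range H).filter fun k' => k' ≠ k ∧ v * k + lam k' ≤ v * k' + lam k).card

/-- Convex row weights with a kink between the rows `p - 1` and `p`. -/
def lamP (p q k : ℕ) : ℕ := (p + q) * (2 * k + 1 - 2 * p)

/-- Concave row weights with a kink between the rows `p - 1` and `p`. -/
def lamM (p q k : ℕ) : ℕ := (p + q) * min (2 * k) (2 * p - 1)

end Pool.Agent.Lib.MP_6e81d8_ag.H36
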