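import Pool.Agent.Lib.MP_6e81d8_ag.H36.Open
import Pool.Agent.Lib.MP_6e81d8_ag.HomJ

/-!
Duality: the conditions are independent as soon as the dual system is empty.
-/

set_option autoImplicit false

namespace Pool.Agent.Lib.MP_6e81d8_ag.H36

open Polynomial Finset

theorem good_emp {ι : Type} [Fintype ι] {H : ℕ} (a : ℕ → ℕ) (m : ι → ℕ) {x c : ι → ℂ}
    (h : EmpC (fun i k => k < H ∧ i < a k) (fun j k => m j - k) x c) :
    Good m (tr H a) univ 0 := by
  refine ⟨fun j => (x j, c j), 0, fun F hF hV _ => h F (fun i k hik => ?_) fun j => ?_⟩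
  · have h1 := mem_lt.mp (mem_rows.mp hF k) i
    have h2 : i < tr H a k := by
      by_contra hc
      exact hik (h1 (not_lt.mp hc))
    by_cases hk : k < H
    · rw [tr_of_lt a hk] at h2
      exact ⟨hk, h2⟩
    · rw [tr_of_le a (not_lt.mp hk)] at h2
      omega
  · have h1 := hV j (mem_univ j)
    rw [Van, mx_eq] at h1
    exact cnd_iff_van.mpr h1

/-- The top coefficient modulo `π`. -/
noncomputable def dualLam (π : ℂ[X]) : ℂ[X] →ₗ[ℂ] ℂ :=
  (lcoeff ℂ (π.natDegree - 1)) ∘ₗ modByMonicHom π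

theorem dualLam_apply (π f : ℂ[X]) : dualLam π f = (f %ₘ π).coeff (π.natDegree - 1) := rfl

theorem dualLam_mul {π : ℂ[X]} (hπ : π.Monic) (g : ℂ[X]) : dualLam π (π * g) = 0 := by
  rw [dualLam_apply, self_mul_modByMonic hπ, coeff_zero]

theorem dualLam_top {π : ℂ[X]} (hπ : π.Monic) {P : ℂ[X]} (hP0 : P ≠ 0)
    (hP : P.natDegree < π.natDegree) :
    dualLam π (X ^ (π.natDegree - 1 - P.natDegree) * P) ≠ 0 := by
  have h1 : (X ^ (π.natDegree - 1 - P.natDegree) * P).degree < π.degree := by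
    refine degree_lt_degree ?_
    rw [natDegree_X_pow_mul _ hP0]
    omega
  have h2 : π.natDegree - 1 = P.natDegree + (π.natDegree - 1 - P.natDegree) := by omega
  rw [dualLam_apply, (modByMonic_eq_self_iff hπ).mpr h1]
  have h3 := coeff_X_pow_mul P (π.natDegree - 1 - P.natDegree) P.natDegree
  rw [← h2] at h3
  rw [h3]
  exact leadingCoeff_ne_zero.mpr hP0

theorem dualLam_mod {π : ℂ[X]} (hπ : π.Monic) (g Q : ℂ[X]) :
    dualLam π (g * Q) = dualLam π (g * (Q %ₘ π)) := by
  have h1 : g * Q = g * (Q %ₘ π) + π * (g * (Q /ₘ π)) := by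
    conv_lhs => rw [← modByMonic_add_div Q π]
    ring
  rw [h1, map_add, dualLam_mul hπ, add_zero]

theorem dual_dvd {π : ℂ[X]} (hπ : π.Monic) {Q : ℂ[X]} (h : ∀ g, dualLam π (g * Q) = 0) :
    π ∣ Q := by
  rw [← modByMonic_eq_zero_iff_dvd hπ]
  by_contra h0
  refine dualLam_top hπ h0 (natDegree_lt_natDegree h0 (degree_modByMonic_lt Q hπ)) ?_
  rw [← dualLam_mod hπ]
  exact h _

theorem dual_exists {π : ℂ[X]} (hπ : π.Monic) (l : ℂ[X] →ₗ[ℂ] ℂ) (hl : ∀ g, l (π * g) = 0) :
    ∃ P : ℂ[X], P.degree < π.natDegree ∧ ∀ g, l g = dualLam π (g * P) := by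
  let W : Submodule ℂ ℂ[X] := degreeLT ℂ π.natDegree
  let T : W →ₗ[ℂ] Module.Dual ℂ W :=
    ((LinearMap.mul ℂ ℂ[X]).compr₂ (dualLam π)).compl₁₂ W.subtype W.subtype
  have hT : ∀ P Q : W, T P Q = dualLam π (P * Q) := fun _ _ => rfl
  have hinj : Function.Injective T := by
    rw [injective_iff_map_eq_zero]
    intro P hP
    by_contra h0
    have hP0 : (P : ℂ[X]) ≠ 0 := fun e => h0 (Subtype.ext e)
    have hd : (P : ℂ[X]).natDegree < π.natDegree :=
      (natDegree_lt_iff_degree_lt hP0).mpr (mem_degreeLT.mp P.2)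
    refine dualLam_top hπ hP0 hd ?_
    have hx : (X ^ (π.natDegree - 1 - (P : ℂ[X]).natDegree) : ℂ[X]) ∈ W := by
      refine mem_degreeLT.mpr ?_
      rw [degree_X_pow]
      exact_mod_cast (by omega)
    have := hT P ⟨_, hx⟩
    rw [hP, mul_comm] at this
    exact this.symm
  have hsurj : Function.Surjective T :=
    (LinearMap.injective_iff_surjective_of_finrank_eq_finrank
      Subspace.dual_finrank_eq.symm).mp hinj
  obtain ⟨P, hP⟩ := hsurj (l ∘ₗ W.subtype)
  refine ⟨P, mem_degreeLT.mp P.2, fun g => ?_⟩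
  have hg : g %ₘ π ∈ W := by
    refine mem_degreeLT.mpr ?_
    rw [← degree_eq_natDegree hπ.ne_zero]
    exact degree_modByMonic_lt g hπ
  have h1 := hT P ⟨_, hg⟩
  rw [hP] at h1
  have h2 : l g = l (g %ₘ π) := by
    conv_lhs => rw [← modByMonic_add_div g π]
    rw [map_add, hl, add_zero]
  rw [h2, mul_comm, dualLam_mod hπ]
  exact h1

theorem dual_expand (g r : ℂ[X]) (t : ℕ) : (C g * (X + C r) ^ t : R) =
    ∑ s ∈ range (t + 1), monomial s (r ^ (t - s) * (t.choose s : ℂ[X]) * g) := by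
  ext1 k
  rw [coeff_C_mul, coeff_X_add_C_pow, finsetSum_coeff]
  simp only [coeff_monomial]
  rw [Finset.sum_ite_eq' (range (t + 1)) k]
  split_ifs with hk
  · ring
  · rw [Nat.choose_eq_zero_of_lt (by simpa using hk)]
    simp

theorem dual_taylor (P : ℕ → ℂ[X]) (r : ℂ[X]) {h k : ℕ} (hk : k ≤ h) :
    (taylor r (∑ s ∈ range (h + 1), monomial (h - s) ((h.choose s : ℂ[X]) * P s) : R)).coeff k =
      (h.choose (h - k) : ℂ[X]) *
        ∑ s ∈ range (h - k + 1), r ^ (h - k - s) * ((h - k).choose s : ℂ[X]) * P s := by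
  rw [map_sum, finsetSum_coeff, Finset.mul_sum,
    ← Finset.sum_subset (range_subset_range.mpr (show h - k + 1 ≤ h + 1 by omega))]
  · refine Finset.sum_congr rfl fun s hs => ?_
    have hs' : s ≤ h - k := by simpa [Nat.lt_succ_iff] using hs
    have e1 : h.choose (h - k) * (h - k).choose s = h.choose s * (h - s).choose k := by
      rw [Nat.choose_mul hs', Nat.choose_symm_of_eq_add (show h - s = h - k - s + k by omega)]
    have e2 : (h.choose (h - k) : ℂ[X]) * ((h - k).choose s : ℂ[X]) =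
        (h.choose s : ℂ[X]) * ((h - s).choose k : ℂ[X]) := by exact_mod_cast e1
    rw [taylor_monomial, coeff_C_mul, coeff_X_add_C_pow, show h - s - k = h - k - s by omega]
    linear_combination (-(r ^ (h - k - s) * P s)) * e2
  · intro s hs hs'
    simp only [mem_range] at hs hs'
    rw [taylor_monomial, coeff_C_mul, coeff_X_add_C_pow,
      Nat.choose_eq_zero_of_lt (show h - s < k by omega)]
    simp

theorem dual_van_C {μ : ℕ} {x y : ℂ} {g : ℂ[X]} (hg : (X - C x) ^ μ ∣ g) (F : R) :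
    Van μ (x, y) (C g * F) := by
  obtain ⟨u, rfl⟩ := hg
  rw [C_mul, C_pow, mul_assoc]
  exact Ideal.mul_mem_right _ _ (Ideal.pow_mem_pow (by simp [mem_mx]) μ)

theorem dual_van_CY {μ t : ℕ} {x c : ℂ} {g : ℂ[X]} (hg : (X - C x) ^ (μ - t) ∣ g) :
    Van μ (x, -c) (C g * (X + C (C c)) ^ t) := by
  obtain ⟨u, rfl⟩ := hg
  refine Van.mono (show μ ≤ μ - t + t by omega) ?_
  rw [mul_comm _ u, C_mul, C_pow, mul_assoc]
  exact Ideal.mul_mem_left _ _ (mul_mem_pow_add (by simp [mem_mx]) (by simp [mem_mx]))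

/-- A functional that kills the rows and the solutions vanishes on the test elements. -/
theorem dual_key {ι : Type} [Fintype ι] {h : ℕ} (a : ℕ → ℕ) (m : ι → ℕ) {x c : ι → ℂ}
    (H : EmpC (fun i k => k < h + 1 ∧ i + a (h - k) < ∑ j, m j) (fun j k => min (m j) (h - k))
      x c) (l : R →ₗ[ℂ] ℂ) (hV : ∀ F ∈ rows fun b => lt (tr (h + 1) a b), l F = 0)
    (hS : ∀ F, (∀ j, Van (m j) (x j, -c j) F) → l F = 0) (g r : ℂ[X]) {t : ℕ} (ht : t ≤ h) :
    l (C g * (X + C r) ^ t) = 0 := by
  classical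
  let π : ℂ[X] := ∏ j, (X - C (x j)) ^ m j
  have hπ : π.Monic := monic_prod_of_monic _ _ fun j _ => (monic_X_sub_C _).pow _
  have hD : π.natDegree = ∑ j, m j := by
    rw [natDegree_prod_of_monic _ _ fun j _ => (monic_X_sub_C _).pow _]
    simp
  have hπj : ∀ j, (X - C (x j)) ^ m j ∣ π := fun j => Finset.dvd_prod_of_mem _ (mem_univ j)
  have hex : ∀ s : ℕ, ∃ P : ℂ[X], P.degree < π.natDegree ∧
      ∀ g, l (monomial s g) = dualLam π (g * P) := by
    intro s
    refine dual_exists hπ (l ∘ₗ (monomial s : ℂ[X] →ₗ[ℂ[X]] R).restrictScalars ℂ) fun g => ?_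
    change l (monomial s (π * g)) = 0
    refine hS _ fun j => ?_
    rw [← C_mul_X_pow_eq_monomial]
    exact dual_van_C ((hπj j).mul_right g) _
  choose P hPd hP using hex
  have hQ : ∀ (g r : ℂ[X]) (t : ℕ), l (C g * (X + C r) ^ t) =
      dualLam π (g * ∑ s ∈ range (t + 1), r ^ (t - s) * (t.choose s : ℂ[X]) * P s) := by
    intro g r t
    rw [dual_expand, map_sum, Finset.mul_sum, map_sum]
    refine Finset.sum_congr rfl fun s _ => ?_
    rw [hP]
    congr 1
    ring
  have hdeg : ∀ s ≤ h, P s ≠ 0 → (P s).natDegree + a s < ∑ j, m j := by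
    intro s hs h0
    have hd : (P s).natDegree < π.natDegree := (natDegree_lt_iff_degree_lt h0).mpr (hPd s)
    by_contra hc
    refine dualLam_top hπ h0 hd ?_
    rw [← hP]
    refine hV _ (mem_rows.mpr fun b => ?_)
    rw [coeff_monomial]
    split_ifs with hb
    · subst hb
      rw [mem_lt_degree, degree_X_pow, tr_of_lt a (by omega)]
      exact_mod_cast (by omega)
    · exact zero_mem _
  have hrow : ∀ k ≤ h,
      (∑ s ∈ range (h + 1), monomial (h - s) ((h.choose s : ℂ[X]) * P s) : R).coeff k =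
        (h.choose (h - k) : ℂ[X]) * P (h - k) := by
    intro k hk
    rw [finsetSum_coeff, Finset.sum_eq_single (h - k)]
    · rw [coeff_monomial, if_pos (by omega)]
    · intro s hs hne
      rw [coeff_monomial, if_neg (by have := mem_range.mp hs; omega)]
    · intro hn
      exact absurd (mem_range.mpr (by omega)) hn
  have hG := H (∑ s ∈ range (h + 1), monomial (h - s) ((h.choose s : ℂ[X]) * P s))
    (fun i k hik => by
      have hk : k ≤ h := by
        by_contra hc
        refine hik ?_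
        rw [H88.cf, finsetSum_coeff, Finset.sum_eq_zero, coeff_zero]
        intro s _
        rw [coeff_monomial, if_neg (by omega)]
      rw [H88.cf, hrow k hk, ← C_eq_natCast, coeff_C_mul] at hik
      have h1 := right_ne_zero_of_mul hik
      have h2 := le_natDegree_of_ne_zero h1
      have h3 := hdeg (h - k) (by omega) fun e => h1 (by rw [e, coeff_zero])
      exact ⟨by omega, by omega⟩)
    (fun j => cnd_iff_dvd.mpr fun k => by
      by_cases hk : k ≤ h
      · beta_reduce
        rw [dual_taylor P _ hk]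
        refine Dvd.dvd.mul_left ?_ _
        generalize h - k = t
        have h1 : π ∣ ((∏ j' ∈ univ.erase j, (X - C (x j')) ^ m j') * (X - C (x j)) ^ (m j - t)) *
            ∑ s ∈ range (t + 1), C (c j) ^ (t - s) * (t.choose s : ℂ[X]) * P s := by
          refine dual_dvd hπ fun g => ?_
          rw [← mul_assoc, ← hQ]
          refine hS _ fun j' => ?_
          by_cases hj : j' = j
          · subst hj
            exact dual_van_CY (Dvd.dvd.mul_left (dvd_mul_left _ _) g)
          · refine dual_van_C (Dvd.dvd.mul_left (Dvd.dvd.mul_right ?_ _) g) _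
            exact Finset.dvd_prod_of_mem _ (mem_erase.mpr ⟨hj, mem_univ _⟩)
        have h2 : π = ((∏ j' ∈ univ.erase j, (X - C (x j')) ^ m j') * (X - C (x j)) ^ (m j - t)) *
            (X - C (x j)) ^ min (m j) t := by
          rw [mul_assoc, ← pow_add, show m j - t + min (m j) t = m j by omega]
          exact (Finset.prod_erase_mul _ _ (mem_univ j)).symm
        rw [h2] at h1
        have hne : (∏ j' ∈ univ.erase j, (X - C (x j')) ^ m j') * (X - C (x j)) ^ (m j - t) ≠ 0 :=
          mul_ne_zero (Finset.prod_ne_zero_iff.mpr fun j' _ =>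
            pow_ne_zero _ (X_sub_C_ne_zero (x j'))) (pow_ne_zero _ (X_sub_C_ne_zero (x j)))
        exact (mul_dvd_mul_iff_left hne).mp h1
      · beta_reduce
        rw [show h - k = 0 by omega]
        simp)
  have hP0 : ∀ s ≤ h, P s = 0 := by
    intro s hs
    have h1 := hrow (h - s) (by omega)
    rw [hG, coeff_zero, show h - (h - s) = s by omega] at h1
    refine (mul_eq_zero.mp h1.symm).resolve_left ?_
    exact_mod_cast (Nat.choose_pos hs).ne'
  rw [hQ, Finset.sum_eq_zero, mul_zero, map_zero]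
  intro s hs
  rw [hP0 s (by have := mem_range.mp hs; omega), mul_zero]

theorem dual_tay (x c : ℂ) (i t : ℕ) :
    tay (x, -c) (C ((X - C x) ^ i) * (X + C (C c)) ^ t) = monomial t (monomial i 1) := by
  have h1 : tay (x, -c) (C (X - C x)) = C X := by
    rw [C_sub, map_sub]
    simp only [tay, aevalAeval_X]
    rw [aevalAeval_C, aeval_C]
    simp [algebraMap_eq]
  have h2 : tay (x, -c) (X + C (C c)) = X := by
    rw [map_add]
    simp only [tay, aevalAeval_Y]
    rw [aevalAeval_C, aeval_C]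
    simp [algebraMap_eq]
  rw [C_pow, map_mul, map_pow, map_pow, h1, h2, ← C_pow, C_mul_X_pow_eq_monomial,
    X_pow_eq_monomial]

theorem good_dual {ι : Type} [Fintype ι] {h : ℕ} (a : ℕ → ℕ) (m : ι → ℕ) (hm : ∀ j, m j ≤ h + 1)
    {x c : ι → ℂ} (hx : Function.Injective x)
    (H : EmpC (fun i k => k < h + 1 ∧ i + a (h - k) < ∑ j, m j) (fun j k => min (m j) (h - k))
      x c) :
    Good m (tr (h + 1) a) univ (∑ t ∈ range (h + 1), a t - mass m univ) := by
  classical
  let V : Submodule ℂ R := rows fun b => lt (tr (h + 1) a b)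
  have hfin : FiniteDimensional ℂ V := finite_good _ (h + 1) fun b hb => tr_of_le a hb
  have hV : Module.finrank ℂ V ≤ ∑ t ∈ range (h + 1), a t := by
    refine (finrank_rows _ (fun _ => inferInstance) (h + 1) fun b hb => ?_).trans ?_
    · simp only [tr_of_le a hb, lt, range_zero, supp_empty]
    · rw [← sum_tr (h + 1) a]
      exact Finset.sum_le_sum fun b _ => by simpa using finrank_supp (range (tr (h + 1) a b))
  let T : Finset (Σ _ : ι, Σ _ : ℕ, ℕ) :=
    univ.sigma fun j => (range (h + 1)).sigma fun t => range (m j - t)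
  have hT : ∀ z : Σ _ : ι, Σ _ : ℕ, ℕ, z ∈ T → z.2.1 ≤ h ∧ z.2.2 + z.2.1 < m z.1 := by
    intro z hz
    simp only [T, mem_sigma, mem_univ, mem_range, true_and] at hz
    omega
  have hcard : T.card = mass m univ := by
    simp only [T, card_sigma, card_range, mass]
    exact Finset.sum_congr rfl fun j _ => sum_range_sub_tri _ _ (hm j)
  let Φ : R →ₗ[ℂ] (T → ℂ) := LinearMap.pi fun z =>
    lcoeff ℂ z.1.2.2 ∘ₗ cf z.1.2.1 ∘ₗ (tay (x z.1.1, -c z.1.1)).toLinearMap
  have hΦ : ∀ F z, Φ F z = ((tay (x z.1.1, -c z.1.1) F).coeff z.1.2.1).coeff z.1.2.2 :=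
    fun _ _ => rfl
  have hΦ0 : ∀ F (z : T), Van (m z.1.1) (x z.1.1, -c z.1.1) F → Φ F z = 0 := fun F z hF =>
    (van_iff _ _ _).mp hF _ _ (hT z.1 z.2).2
  let Φ' : V →ₗ[ℂ] (T → ℂ) := Φ ∘ₗ V.subtype
  have hsurj : LinearMap.range Φ' = ⊤ := by
    by_contra hne
    obtain ⟨f, hf0, hf⟩ := Submodule.exists_le_ker_of_lt_top _ (lt_top_iff_ne_top.mpr hne)
    refine hf0 ((Pi.basisFun ℂ T).ext fun z => ?_)
    obtain ⟨⟨j, t, i⟩, hz⟩ := z
    have hcop : IsCoprime ((X - C (x j)) ^ m j) (∏ j' ∈ univ.erase j, (X - C (x j')) ^ m j') :=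
      IsCoprime.prod_right fun j' hj' =>
        (pairwise_coprime_X_sub_C hx (mem_erase.mp hj').1.symm).pow
    obtain ⟨u, v, huv⟩ := hcop
    have key := dual_key a m H (f ∘ₗ Φ) (fun F hF => hf ⟨⟨F, hF⟩, rfl⟩)
      (fun F hF => by
        have : Φ F = 0 := funext fun z => hΦ0 F z (hF _)
        rw [LinearMap.comp_apply, this, map_zero])
      (v * (∏ j' ∈ univ.erase j, (X - C (x j')) ^ m j') * (X - C (x j)) ^ i) (C (c j))
      (hT _ hz).1
    rw [Pi.basisFun_apply, LinearMap.zero_apply, ← key, LinearMap.comp_apply]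
    congr 1
    funext ⟨⟨j', t', i'⟩, hz'⟩
    by_cases hj : j' = j
    · subst hj
      have e : (C (v * (∏ j'' ∈ univ.erase j', (X - C (x j'')) ^ m j'') * (X - C (x j')) ^ i) *
          (X + C (C (c j'))) ^ t : R) = C ((X - C (x j')) ^ i) * (X + C (C (c j'))) ^ t -
          C ((X - C (x j')) ^ m j' * u * (X - C (x j')) ^ i) * (X + C (C (c j'))) ^ t := by
        rw [← sub_mul, ← C_sub]
        congr 2
        linear_combination ((X - C (x j')) ^ i) * huv
      rw [e, map_sub, Pi.sub_apply, hΦ0 _ ⟨⟨j', t', i'⟩, hz'⟩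
        (dual_van_C (((dvd_refl _).mul_right _).mul_right _) _), sub_zero, hΦ, dual_tay,
        Pi.single_apply, coeff_monomial]
      by_cases h1 : t = t'
      · subst h1
        rw [if_pos rfl, coeff_monomial]
        by_cases h2 : i = i'
        · subst h2
          simp
        · rw [if_neg h2, if_neg]
          intro e
          exact h2 (congrArg (fun z : T => z.1.2.2) e).symm
      · rw [if_neg h1, coeff_zero, if_neg]
        intro e
        exact h1 (congrArg (fun z : T => z.1.2.1) e).symm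
    · have hd : (X - C (x j')) ^ m j' ∣ ∏ j'' ∈ univ.erase j, (X - C (x j'')) ^ m j'' :=
        Finset.dvd_prod_of_mem (fun j'' => (X - C (x j'')) ^ m j'') (mem_erase.mpr ⟨hj, mem_univ _⟩)
      rw [hΦ0 _ ⟨⟨j', t', i'⟩, hz'⟩ (dual_van_C ((hd.mul_left _).mul_right _) _), Pi.single_apply,
        if_neg]
      intro e
      exact hj (congrArg (fun z : T => z.1.1) e)
  have hker := LinearMap.finrank_range_add_finrank_ker (K := ℂ) (V := V) (V₂ := T → ℂ) Φ'
  rw [hsurj, finrank_top, Module.finrank_fintype_fun_eq_card, Fintype.card_coe, hcard] at hker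
  have hf1 : FiniteDimensional ℂ ((LinearMap.ker Φ').map V.subtype) :=
    Submodule.finiteDimensional_of_le (Submodule.map_subtype_le V _)
  obtain ⟨_, Ψ, hΨ⟩ := bd_of_finrank (fun _ : Unit => 0)
    ((LinearMap.ker Φ').map V.subtype) ∅
    (ρ := ∑ t ∈ range (h + 1), a t - mass m univ)
    ((Submodule.finrank_map_subtype_eq V _).trans_le (by omega))
  refine ⟨fun j => (x j, -c j), Ψ, fun F hF hv h0 => hΨ F ⟨⟨F, hF⟩, ?_, rfl⟩ (by simp) h0⟩
  exact funext fun z => hΦ0 F z (hv _ (mem_univ _))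

end Pool.Agent.Lib.MP_6e81d8_ag.H36
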