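import Pool.Agent.Lib.MP_6e81d8_ag.H36.Open
import Pool.Agent.Lib.MP_6e81d8_ag.H88ET

/-!
Elementary transformations: all places are moved to the wall, at the price of virtual residents.
-/

set_option autoImplicit false

namespace Pool.Agent.Lib.MP_6e81d8_ag.H36

open Polynomial Finset H88
open scoped Polynomial.Bivariate

lemma elm_step {ψ : ℕ → ℕ} (h : ∀ k, ψ k ≤ ψ (k + 1) + 1) (s d : ℕ) : ψ s ≤ ψ (s + d) + d := by
  induction d with
  | zero => simp
  | succ d ih =>
    have := h (s + d)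
    have e : s + (d + 1) = s + d + 1 := (add_assoc _ _ _).symm
    rw [e]
    omega

lemma elm_wall {ψ : ℕ → ℕ} (hψ : ∀ k, ψ k ≤ ψ (k + 1) + 1) {a : ℚ} {g r q : ℚ[X]} {t : ℕ}
    (e s : ℕ) (hg : (X - C a) ^ ψ t ∣ g) (hr : X - C a ∣ r) :
    (X - C a) ^ ψ s ∣ (C g * (Y + C r) ^ t * C q ^ e : ℚ[X][Y]).coeff s := by
  rw [← C_pow, coeff_mul_C, coeff_C_mul, coeff_X_add_C_pow]
  by_cases hst : s ≤ t
  · obtain ⟨d, rfl⟩ := Nat.exists_eq_add_of_le hst
    rw [Nat.add_sub_cancel_left]
    apply Dvd.dvd.mul_right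
    rw [← mul_assoc]
    apply Dvd.dvd.mul_right
    refine (pow_dvd_pow _ (elm_step hψ s d)).trans ?_
    rw [pow_add]
    exact mul_dvd_mul hg (pow_dvd_pow_of_dvd hr d)
  · rw [Nat.choose_eq_zero_of_lt (not_le.mp hst)]
    simp

lemma elm_inj {h : ℕ} {f : ℚ[X][Y]} (hf : f.natDegree ≤ h) {p q : ℚ[X]} (hq : q ≠ 0)
    (h0 : ∑ t ∈ range (h + 1), C (f.coeff t) * (Y + C p) ^ t * C q ^ (h - t) = 0) : f = 0 := by
  have h1 := congrArg (fun g : ℚ[X][Y] => g.comp (Y - C p)) h0
  simp only [zero_comp, Polynomial.sum_comp, mul_comp, pow_comp, C_comp, add_comp, X_comp,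
    sub_add_cancel] at h1
  ext1 k
  rw [coeff_zero]
  by_cases hk : k ≤ h
  · have h2 := congrArg (fun g : ℚ[X][Y] => g.coeff k) h1
    simp only [coeff_zero, finsetSum_coeff, ← C_pow, coeff_mul_C, coeff_C_mul_X_pow] at h2
    rw [Finset.sum_eq_single k, if_pos rfl] at h2
    · exact (mul_eq_zero.mp h2).resolve_right (pow_ne_zero _ hq)
    · intro k' _ hne
      rw [if_neg (Ne.symm hne), zero_mul]
    · intro h
      exact absurd (mem_range.mpr (by omega)) h
  · exact coeff_eq_zero_of_natDegree_lt (by omega)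

lemma elm_sup {h S K lam : ℕ} {f : ℚ[X][Y]}
    (hf : Sup (fun i k => k < h + 1 ∧ i + S * k < lam) f) {p q : ℚ[X]} (hp : p.natDegree ≤ K)
    (hq : q.natDegree ≤ K) :
    Sup (fun i k => k < h + 1 ∧ i + (S + K) * k < lam + K * h)
      (∑ t ∈ range (h + 1), C (f.coeff t) * (Y + C p) ^ t * C q ^ (h - t)) := by
  intro i k hik
  rw [cf_sum] at hik
  obtain ⟨t, ht, hik⟩ := exists_ne_zero_of_sum_ne_zero hik
  have ht' : t ≤ h := Nat.lt_succ_iff.mp (mem_range.mp ht)
  have hft : f.coeff t ≠ 0 := by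
    intro h0
    rw [h0, C_0, zero_mul, zero_mul] at hik
    exact hik (cf_zero i k)
  have h0 : (f.coeff t).natDegree + S * t < lam := (hf _ t (leadingCoeff_ne_zero.mpr hft)).2
  have a1 : Bd 0 1 1 (Y + C p : ℚ[X][Y]) := bd_Y.add (bd_C (by simp))
  have a2 : Bd 0 1 0 (C q : ℚ[X][Y]) := bd_C (by simp)
  have a3 := ((bd_C (c := 0) (p := f.coeff t) (by simp)).mul (a1.pow t)).mul (a2.pow (h - t))
    i k hik
  have b1 : Bd 1 (S + K) (S + K) (Y + C p : ℚ[X][Y]) := bd_Y.add (bd_C (by omega))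
  have b2 : Bd 1 (S + K) K (C q : ℚ[X][Y]) := bd_C (by omega)
  have b3 := ((bd_C (c := (f.coeff t).natDegree) (p := f.coeff t) (by simp)).mul
    (b1.pow t)).mul (b2.pow (h - t)) i k hik
  obtain ⟨z, rfl⟩ := Nat.exists_eq_add_of_le ht'
  rw [Nat.add_sub_cancel_left] at a3 b3
  refine ⟨by omega, ?_⟩
  nlinarith

theorem elm {ι : Type} [Fintype ι] {h S lam : ℕ} {φ : ι → ℕ → ℕ} {J : ι → Bool}
    (hJ : ∀ j, J j = true → ∀ k, φ j k ≤ h - k)
    (hφ : ∀ j, J j = false → ∀ k, φ j k ≤ φ j (k + 1) + 1)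
    (H : GE (fun i k => k < h + 1 ∧ i + (S + (univ.filter fun j => J j = true).card) * k <
      lam + (univ.filter fun j => J j = true).card * h) φ J) :
    ∃ a b : {j // J j = false} → ℚ, Function.Injective a ∧
      EmpC (fun i k => k < h + 1 ∧ i + S * k < lam) (fun j => φ j.1) a b := by
  classical
  set s : Finset ι := univ.filter fun j => J j = true with hs
  have hB : Bdd (fun i k => k < h + 1 ∧ i + (S + s.card) * k < lam + s.card * h) :=
    ⟨h + 1 + (lam + s.card * h), fun i k hik => ⟨by have := hik.2; omega, by have := hik.1; omega⟩⟩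
  obtain ⟨a, c, ha, -, hE, -⟩ := GE.both hB hB H H
  set q : ℚ[X] := ∏ j ∈ s, (X - C (a j)) with hq
  have hqm : q.Monic := monic_prod_of_monic _ _ (fun j _ => monic_X_sub_C _)
  have hqd : q.natDegree = s.card := by
    rw [hq, natDegree_prod_of_monic _ _ (fun j _ => monic_X_sub_C _)]
    simp
  set p : ℚ[X] := Lagrange.interpolate s a (fun j => - c j) with hp
  have hpd : p.natDegree ≤ s.card := by
    apply natDegree_le_iff_degree_le.mpr
    exact (Lagrange.degree_interpolate_lt _ ha.injOn).le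
  have hpe : ∀ j ∈ s, p.eval (a j) = - c j := fun j hj =>
    Lagrange.eval_interpolate_at_node _ ha.injOn hj
  refine ⟨fun j => a j.1, fun j => p.eval (a j.1) / q.eval (a j.1),
    fun i j hij => Subtype.ext (ha hij), fun f hf hc => ?_⟩
  have hfW : f.natDegree ≤ h := by
    rw [natDegree_le_iff_coeff_eq_zero]
    intro k hk
    ext i
    by_contra h0
    exact absurd (hf i k h0).1 (by omega)
  have hS := elm_sup hf hpd hqd.le
  refine elm_inj hfW (p := p) hqm.ne_zero (hE _ hS fun j => ?_)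
  cases hj : J j with
  | true =>
    have hjs : j ∈ s := by simp [hs, hj]
    show Cnd (φ j) (a j) (if J j = true then c j else 0) _
    rw [if_pos hj]
    refine Cnd.mono (φ := fun k => h - k) (H := h + 1) (fun i k hik => (hS i k hik).1)
      (fun k _ => hJ j hj k) (cnd_iff_van.mpr ?_)
    apply van_sum
    intro t ht
    have ht' : t ≤ h := Nat.lt_succ_iff.mp (mem_range.mp ht)
    have h1 : (Y + C p : ℚ[X][Y]) ∈ mx (a j) (c j) := by
      have := Y_sub_C_mem_mx (a := a j) (b := c j) (p := -p) (by simp [hpe j hjs])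
      rwa [C_neg, sub_neg_eq_add] at this
    have h2 : (C q : ℚ[X][Y]) ∈ mx (a j) (c j) := by
      apply C_mem_mx
      rw [hq, eval_prod]
      exact Finset.prod_eq_zero hjs (by simp)
    rw [mul_assoc]
    have h3 : h ≤ t + (h - t) := by omega
    exact (((van_pow h1 t).mul (van_pow h2 (h - t))).mono h3).mul_left _
  | false =>
    show Cnd (φ j) (a j) (if J j = true then c j else 0) _
    rw [if_neg (by simp [hj])]
    have hq0 : q.eval (a j) ≠ 0 := by
      rw [hq, eval_prod]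
      refine Finset.prod_ne_zero_iff.mpr fun i hi => ?_
      simp only [eval_sub, eval_X, eval_C]
      intro h0
      have : j = i := ha (sub_eq_zero.mp h0)
      rw [← this] at hi
      simp [hs, hj] at hi
    set y : ℚ := p.eval (a j) / q.eval (a j) with hy
    have hd := cnd_iff_dvd.mp (hc ⟨j, hj⟩)
    have hsh := homog_shift C f hfW (C y) (Y + C (p - C y * q) : ℚ[X][Y]) (C q)
      (C_ne_zero.mpr hqm.ne_zero)
    have he : (Y + C (p - C y * q) + C (C y) * C q : ℚ[X][Y]) = Y + C p := by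
      rw [C_sub, C_mul]
      ring
    rw [he] at hsh
    rw [cnd_wall, hsh]
    intro k
    rw [finsetSum_coeff]
    refine Finset.dvd_sum fun t _ => elm_wall (hφ j hj) _ k ?_ ?_
    · have := hd t
      rwa [taylor_apply] at this
    · apply dvd_iff_isRoot.mpr
      simp only [IsRoot, eval_sub, eval_mul, eval_C, hy]
      field_simp
      ring

end Pool.Agent.Lib.MP_6e81d8_ag.H36
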