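import Pool.Agent.Lib.MP_6e81d8_ag.ExpSq

/-!
The square case and the case of small multiplicities, in a wider range.
-/

set_option autoImplicit false

namespace Pool.Agent.Lib.MP_6e81d8_ag.H36

open Polynomial Finset

theorem square_row {ι : Type} [Fintype ι] {x : ι → ℂ} (hx : Function.Injective x) {r : ι → ℕ}
    {n : ℕ} {g : ℂ[X]} (hg : ∀ i, g.coeff i ≠ 0 → i < n) (hd : ∀ j, (X - C (x j)) ^ r j ∣ g)
    (hn : n ≤ ∑ j, r j) : g = 0 := by
  by_contra h0
  have h1 : ∏ j, (X - C (x j)) ^ r j ∣ g :=
    Fintype.prod_dvd_of_coprime (fun i j hij => (pairwise_coprime_X_sub_C hx hij).pow) hd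
  have h2 := natDegree_le_of_dvd h1 h0
  rw [natDegree_prod_of_monic _ _ fun j _ => (monic_X_sub_C _).pow _] at h2
  simp only [natDegree_pow, natDegree_X_sub_C, mul_one] at h2
  have h3 := hg g.natDegree (leadingCoeff_ne_zero.2 h0)
  omega

theorem square_sum {N : ℕ} (hN : 2 ≤ N) (a b : ℕ) :
    ∑ j : Fin N, (if j.1 < 2 then a else b) + 2 * b = 2 * a + N * b := by
  obtain ⟨t, rfl⟩ := Nat.exists_eq_add_of_le' hN
  rw [Fin.sum_univ_succ, Fin.sum_univ_succ, if_pos (by simp), if_pos (by simp),
    sum_congr rfl fun j _ => if_neg (by simp only [Fin.val_succ]; omega)]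
  simp only [sum_const, card_univ, Fintype.card_fin, smul_eq_mul]
  ring

theorem square_good {N m : ℕ} (hN : 2 ≤ N) (hm : 1 ≤ m) (n : ℕ → ℕ)
    (hz : ∀ b, m + 1 ≤ b → n b = 0) (hlow : ∀ b < m, n b + 2 ≤ N * (m - b)) (htop : n m ≤ 2 * m) :
    Good (fun _ : Fin N => m) n univ 0 := by
  classical
  have hW : ∀ i k, i < n k → k ≤ m := fun i k h => by
    by_contra hk
    rw [hz k (by omega)] at h
    omega
  obtain ⟨L, hL⟩ : ∃ L, (m + 2) * m = L + (m + 2) :=
    ⟨(m + 2) * (m - 1), by rw [← Nat.mul_succ]; congr 1; omega⟩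
  have H := H88.emp_speeds (K := ℂ) (D := fun i k => i < n k) m hW (fun _ : Fin N => m)
    (fun j => ((j.1 : ℕ) : ℂ)) (fun j => if j.1 < 2 then m + 1 else 0)
    (fun k => if k < m then (m + 2) * k else L + 1)
    (fun j k => if j.1 < 2 then (if k = m then ∅ else insert m (range k)) else range k)
    (fun j k => by
      split_ifs with h1 h2
      · simp
      · simp [h2]
      · simp)
    (fun j k k' hk hk' hne hU => by
      by_cases h1 : j.1 < 2
      · simp only [if_pos h1] at hU ⊢
        by_cases h2 : k = m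
        · subst h2
          rw [if_neg (lt_irrefl _), if_pos (by omega)]
          nlinarith only [hL, Nat.zero_le k']
        · rw [if_neg h2, mem_insert, mem_range, not_or] at hU
          rw [if_pos (by omega), if_pos (by omega)]
          have : k < k' := by omega
          nlinarith only [this]
      · simp only [if_neg h1, mem_range, zero_mul, zero_add] at hU ⊢
        have h2 : k + 1 ≤ k' := by omega
        have h3 := Nat.mul_le_mul_left (m + 2) h2
        have h4 := Nat.mul_le_mul_left (m + 2) (h2.trans hk')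
        rw [mul_add, mul_one] at h3 h4
        rw [if_pos (by omega)]
        split_ifs <;> omega)
    (fun k hk g hg hd => by
      refine square_row (fun i j hij => Fin.ext (by exact_mod_cast hij)) hg hd ?_
      by_cases h2 : k = m
      · subst h2
        have h3 := square_sum hN k 0
        rw [sum_congr rfl fun j _ => show _ = if j.1 < 2 then k else 0 by split_ifs <;> simp_all]
        omega
      · have h3 := square_sum hN (m - k - 1) (m - k)
        have h4 := hlow k (by omega)
        rw [sum_congr rfl fun j _ => show _ = if j.1 < 2 then m - k - 1 else m - k by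
          split_ifs
          · rw [card_insert_of_notMem (by rw [mem_range]; omega), card_range, Nat.sub_sub]
          · rw [card_range]]
        omega)
  obtain ⟨t, -, H'⟩ := H88.emp_specialise (E := 1) ⟨∑ k ∈ range (m + 1), n k + (m + 1),
    fun i k h => by
      have h1 := hW i k h
      have h2 := single_le_sum (f := n) (fun _ _ => Nat.zero_le _)
        (mem_range.2 (show k < m + 1 by omega))
      omega⟩ H one_ne_zero
  refine bd_of_few H'.few fun F hF i k hik => ?_
  by_contra hc
  exact hik (mem_lt.mp (mem_rows.mp hF k) i (not_lt.1 hc))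

/-- A square number of points: the empty side, for `u * u ≤ 16 * m`. -/
theorem square_emp2 {u m e : ℕ} (hu : 8 ≤ u) (h : 2 * e + 1 < (2 * m + 1) * u)
    (hm : u * u ≤ 16 * m) : Bd (fun _ : Fin (u * u) => m) (Dsp e e) univ 0 := by
  obtain ⟨z, hz1, hz2⟩ : ∃ z, 2 * z + 2 ≤ u ∧ u ≤ 2 * z + 3 := ⟨(u - 2) / 2, by omega, by omega⟩
  have he : e ≤ m * u + z := by
    rw [add_mul, mul_assoc] at h
    omega
  refine Bd.mono (Dsp_mono he) subset_rfl (bd_of_ell (u := u) (by omega) ?_)
  generalize hE : m * u + z = E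
  have huu : 8 * 8 ≤ u * u := Nat.mul_le_mul hu hu
  refine square_good (by omega) (by omega) _
    (fun b hb => ell_zero (K := m + 1) (by rw [add_mul]; omega) hb) (fun b hb => ?_) ?_
  · have h1 : ell u E E b + u * u * b = sz u E :=
      ell_lin le_rfl ((Nat.mul_le_mul_right u hb).trans (by omega))
    have h0 : u ≤ m * u := Nat.le_mul_of_pos_left u (by omega)
    have h2 := two_sz (u := u) (e := E) (by omega)
    obtain ⟨t, rfl⟩ := Nat.exists_eq_add_of_le hb.le
    rw [Nat.add_sub_cancel_left]
    subst hE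
    nlinarith only [h1, h2, hz1, hu]
  · rw [ell, show E - m * u = z by omega, min_eq_right (by omega), sz_self]
    have h1 := two_tri z
    nlinarith only [h1, hz1, hm]

theorem hom_small2 {n m d : ℕ} (hn : 10 ^ 6 ≤ n) (hm0 : 0 < m) (hm1 : 16 * m ≤ n) :
    Bd (fun _ : Fin n => m) (Dsp (d + 1) (d + 1)) univ (tri (d + 1) - n * tri m) := by
  have hT : 1 ≤ tri m := tri_mono (a := 1) hm0
  obtain ⟨d₀, -, -, h1, h2⟩ := exists_step (f := fun z => n * tri m < tri (z + 1)) (a := 0)
    (b := n * tri m) (by simp only [tri]; nlinarith) (by simp only [tri]; omega) (Nat.zero_le _)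
  have key : ∀ d', d₀ ≤ d' →
      Bd (fun _ : Fin n => m) (Dsp (d' + 1) (d' + 1)) univ (tri (d' + 1) - n * tri m) := by
    intro d' hd'
    have a1 := two_tri (d₀ + 1 + 1)
    have a2 := two_tri m
    have a3 : n * (m * m) ≤ (d₀ + 3) * (d₀ + 3) := by
      have : n * (m * m) ≤ n * (2 * tri m) := Nat.mul_le_mul_left _ (by nlinarith only [a2])
      nlinarith only [this, a1, h2]
    have a4 : 1000 * m ≤ d₀ + 3 := by
      refine Nat.mul_self_le_mul_self_iff.mp ?_
      have : 10 ^ 6 * (m * m) ≤ n * (m * m) := Nat.mul_le_mul_right _ hn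
      nlinarith only [this, a3]
    have a5 : 14 * m ^ 3 ≤ d' * (d' - m) := by
      have b1 : (99 * (d₀ + 3)) * (99 * (d₀ + 3)) ≤ (100 * d') * (100 * (d' - m)) :=
        Nat.mul_le_mul (by omega) (by omega)
      have b2 : 16 * m * (m * m) ≤ n * (m * m) := Nat.mul_le_mul_right _ hm1
      nlinarith only [b1, b2, a3, Nat.zero_le (m ^ 3)]
    have := free_first n d' (fun _ => m) (by omega) (fun _ _ _ => le_rfl) (fun _ => hm0)
      (fun _ _ _ _ _ _ => by omega) a5
    rwa [mass_const] at this
  rcases le_total d₀ d with h | h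
  · exact key d h
  · have h3 := key d₀ le_rfl
    have h4 := tri_mono (show d + 1 ≤ d₀ + 1 by omega)
    rw [show tri (d₀ + 1) - n * tri m = 0 by omega] at h3
    rw [show tri (d + 1) - n * tri m = 0 by omega]
    refine Bd.mono (rows_mono fun b f hf => mem_lt.mpr fun a ha => mem_lt.mp hf a ?_) subset_rfl h3
    omega

end Pool.Agent.Lib.MP_6e81d8_ag.H36
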