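import Pool.Agent.Lib.MP_6e81d8_ag.H36.Trap
import Pool.Agent.Lib.MP_6e81d8_ag.H36.Square
import Pool.Agent.Lib.MP_6e81d8_ag.ExpCore

/-!
The homogeneous case of the conjecture for all multiplicities and at least `10 ^ 10` points.
-/

set_option autoImplicit false

namespace Pool.Agent.Lib.MP_6e81d8_ag.H36

open Polynomial Finset Module

theorem big_res (W m : ℕ) :
    ∃ j ≤ 5, 3 ≤ (W + j * (2 * m + 1)) % 120 ∧ (W + j * (2 * m + 1)) % 120 ≤ 117 := by
  by_contra hc
  push Not at hc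
  have h0 := hc 0 (by omega)
  have h1 := hc 1 (by omega)
  have h2 := hc 2 (by omega)
  have h3 := hc 3 (by omega)
  have h4 := hc 4 (by omega)
  have h5 := hc 5 (by omega)
  omega

theorem big_select {m D : ℕ} (hm : 300 ≤ m) (hD : 400 * m ≤ D) :
    ∃ u k r, D = 2 * (k * 60) + (2 * m + 1) * u + r ∧ 3 ≤ r ∧ r ≤ 117 ∧ 248 * m ≤ 100 * k ∧
      100 * (k + 1) ≤ 259 * m := by
  obtain ⟨B, hB⟩ : ∃ B, D = 298 * m + 5 * (2 * m + 1) + B := Nat.exists_eq_add_of_le (by omega)
  have h1 := Nat.div_add_mod B (2 * m + 1)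
  have h2 := Nat.mod_lt B (show 0 < 2 * m + 1 by omega)
  generalize B / (2 * m + 1) = u at h1
  generalize B % (2 * m + 1) = t at h1 h2
  obtain ⟨j, hj, h3, h4⟩ := big_res (298 * m + t) m
  obtain ⟨i, hi⟩ := Nat.exists_eq_add_of_le hj
  have h5 := Nat.mul_le_mul_right (2 * m + 1) hj
  have h6 : 5 * (2 * m + 1) = j * (2 * m + 1) + (2 * m + 1) * i := by rw [hi]; ring
  refine ⟨u + i, (298 * m + t + j * (2 * m + 1)) / 120, (298 * m + t + j * (2 * m + 1)) % 120,
    ?_, h3, h4, by omega, by omega⟩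
  rw [mul_add (2 * m + 1) u i]
  omega

theorem big_deg {n m E : ℕ} (hn : 10 ^ 10 ≤ n) (hc1 : n * tri m ≤ tri E + (E + 1)) :
    200000 * m ≤ 2 * E + 3 := by
  refine Nat.mul_self_le_mul_self_iff.mp ?_
  have a1 := two_tri E
  have a2 := two_tri m
  have a3 := Nat.mul_le_mul_right (tri m) hn
  nlinarith only [a1, a2, a3, hc1, Nat.zero_le m, Nat.zero_le E]

theorem big_crit {n m E : ℕ} (hn : 10 ^ 10 ≤ n) (hm : n ≤ 16 * m)
    (hc1 : n * tri m ≤ tri E + (E + 1)) (hc2 : tri E ≤ n * tri m + (E + 1)) :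
    Bd (fun _ : Fin n => m) (Dsp E E) univ (tri E - n * tri m) := by
  classical
  have hE := big_deg hn hc1
  obtain ⟨u, k, r, hD, hr1, hr2, hk1, hk2⟩ := big_select (m := m) (D := 2 * E + 1) (by omega)
    (by omega)
  obtain ⟨g, hg⟩ : ∃ g, 120 = r + g := ⟨120 - r, by omega⟩
  obtain ⟨e, he⟩ : ∃ e, E = (k + 1) * 60 + e := ⟨E - (k + 1) * 60, by omega⟩
  have e0 : E - (k + 1) * 60 = e := by omega
  have e1 : E - k * 60 = e + 60 := by omega
  have q1 : 2 * (e + 60) + 1 = (2 * m + 1) * u + r := by omega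
  have q0 : 2 * e + 1 + g = (2 * m + 1) * u := by omega
  have hU : 8 * (u * u * tri m) + u * u = ((2 * m + 1) * u) ^ 2 := by
    rw [mul_pow, ← tri_sq_nat]; ring
  have hP1 : 8 * tri (e + 60) + 1 =
      8 * (u * u * tri m) + (u * u + r * r) + 2 * ((2 * m + 1) * u * r) := by
    rw [tri_sq_nat, q1]; linarith only [hU]
  have hP0 : 8 * tri e + 1 + 2 * ((2 * m + 1) * u * g) =
      8 * (u * u * tri m) + (u * u + g * g) := by
    rw [tri_sq_nat, ← add_assoc, hU, ← q0]; ring
  have x1 : (2 * m + 1) * u * 3 ≤ (2 * m + 1) * u * r := Nat.mul_le_mul_left _ hr1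
  have y1 : (2 * m + 1) * u * 3 ≤ (2 * m + 1) * u * g := Nat.mul_le_mul_left _ (by omega)
  have y2 : g * g ≤ 117 * 117 := Nat.mul_le_mul (by omega) (by omega)
  have hu : 8 ≤ u := by
    by_contra hc
    have := Nat.mul_le_mul_left (2 * m + 1) (show u ≤ 7 by omega)
    omega
  have hlin : ∀ b ≤ k, ell 60 E E b = sz 60 E - 60 * 60 * b := fun b hb => by
    have : ell 60 E E b + 60 * 60 * b = sz 60 E := ell_lin le_rfl (by omega)
    omega
  have htr : ∀ j ≤ k + 1, tr j (fun t => sz 60 E - 60 * 60 * t) = tr j (ell 60 E E) :=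
    fun j hj => by
      funext b
      unfold tr
      split_ifs with h
      · exact (hlin b (by omega)).symm
      · rfl
  have hsum : ∀ j ≤ k + 1, ∑ t ∈ range j, (sz 60 E - 60 * 60 * t) = ∑ t ∈ range j, ell 60 E E t :=
    fun j hj => Finset.sum_congr rfl fun b hb => (hlin b (by have := mem_range.1 hb; omega)).symm
  have hz0 := sum_ell 60 E E k
  have hz1 := sum_ell 60 E E (k + 1)
  rw [e1, sz_self, sz_self] at hz0
  rw [e0, sz_self, sz_self] at hz1
  have hlam := two_sz (u := 60) (e := E) (by omega)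
  have hT : 0 < tri m := tri_mono (a := 1) (by omega)
  have hu4 : u * u ≤ n := by
    refine Nat.le_of_mul_le_mul_right ?_ hT
    omega
  obtain ⟨N, hN⟩ := Nat.exists_eq_add_of_le hu4
  have hnT : n * tri m = u * u * tri m + N * tri m := by rw [hN, add_mul]
  have hJ0 : ∑ t ∈ range k, ell 60 E E t + (3 * (60 * 60) + 18) * k ≤ N * tri m := by omega
  have hlo : k * (sz 60 E - 60 * 60 * k) ≤ ∑ t ∈ range k, ell 60 E E t := by
    have := Finset.card_nsmul_le_sum (range k) (ell 60 E E) (sz 60 E - 60 * 60 * k) fun t ht => by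
      have := mem_range.1 ht
      rw [hlin t (by omega)]
      omega
    simpa using this
  have hNm : sz 60 E ≤ N * m := by
    have a1 := two_tri m
    have a2 : 248 * m * (sz 60 E - 60 * 60 * k) ≤ 100 * k * (sz 60 E - 60 * 60 * k) :=
      Nat.mul_le_mul_right _ hk1
    have a3 : m * sz 60 E ≤ m * (2 * (sz 60 E - 60 * 60 * k)) := Nat.mul_le_mul_left _ (by omega)
    have a4 : N * (2 * tri m) ≤ N * (m * (2 * m)) :=
      Nat.mul_le_mul_left _ (by rw [a1]; exact Nat.mul_le_mul_left _ (by omega))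
    refine Nat.le_of_mul_le_mul_left ?_ (show 0 < m by omega)
    nlinarith only [a2, a3, a4, hlo, hJ0, Nat.zero_le k,
      Nat.zero_le (m * (sz 60 E - 60 * 60 * k))]
  have hN' : 10 * (60 * 60) + 60 ≤ N := by
    by_contra hc
    have := Nat.mul_le_mul_right m (show N ≤ 36060 by omega)
    omega
  have hJ1 : N * tri m + (3 * (60 * 60) + 18) * (k + 1) ≤ ∑ t ∈ range (k + 1), ell 60 E E t := by
    generalize ∑ t ∈ range (k + 1), ell 60 E E t = z at hz1
    linarith only [hz1, hc1, hnT, hP0, y1, y2, hu4, hm, hD, hE, hk2, hr2, hn]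
  have hm2 : 2000 ≤ m := by linarith only [hn, hm]
  have hl1 : 60 * 60 * (k + 1) ≤ sz 60 E := by linarith only [hlam, hE, hk2, hm2]
  obtain ⟨Q, hQ⟩ : ∃ Q, k = m + Q := Nat.exists_eq_add_of_le (by linarith only [hk1])
  have J0 := trap_plus (P := m) (Q := Q) (S := 60 * 60) (lam := sz 60 E) (N := N) hm2 (hQ ▸ hk1)
    (by linarith only [hk2, hQ]) (by norm_num) hN' (by linarith only [hl1, hQ])
    (by rw [← hQ, hsum _ (Nat.le_succ k)]; exact hJ0)
  have J1 := trap_minus (P := m) (Q := Q + 1) (S := 60 * 60) (lam := sz 60 E) (N := N) hm2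
    (by linarith only [hk1, hQ]) (by linarith only [hk2, hQ]) (by norm_num) hN'
    (by linarith only [hl1, hQ]) hNm (by rw [← add_assoc, ← hQ, hsum _ le_rfl]; exact hJ1)
  rw [← hQ, htr _ (Nat.le_succ k)] at J0
  rw [← add_assoc, ← hQ, hsum _ le_rfl, htr _ le_rfl] at J1
  replace hJ1 : N * tri m ≤ ∑ t ∈ range (k + 1), ell 60 E E t := le_of_add_le_left hJ1
  clear hl1 hJ0
  have I0 := square_emp2 (u := u) (m := m) (e := e) hu (by omega) (by omega)
  have I1 := square_reg (u := u) (m := m) (e := e + 60) (by omega) (by omega)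
  obtain ⟨v, hv⟩ : ∃ v, v = tri E - n * tri m := ⟨_, rfl⟩
  obtain ⟨a, ha⟩ : ∃ a, tri (e + 60) - u * u * tri m = v + a :=
    ⟨tri (e + 60) - u * u * tri m - v, by omega⟩
  rw [ha] at I1
  obtain ⟨J, -, hJ⟩ := Finset.exists_subset_card_eq (s := (univ : Finset (Fin n))) (n := N)
    (by simp; omega)
  have hI : (univ \ J).card = u * u := by
    rw [card_sdiff_of_subset (subset_univ J), hJ]; simp; omega
  have hμ : ∀ S : Finset (Fin n), ∀ i ∈ S.disjSum (∅ : Finset (Fin v)),
      m ≤ Sum.elim (fun _ : Fin n => m) (fun _ : Fin v => 1) i := by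
    rintro S (i | j) hi
    · exact le_rfl
    · simp at hi
  have hcut := main_cut (μ := Sum.elim (fun _ : Fin n => m) fun _ : Fin v => 1) (A := E)
    (e := E) (k := k) (s := 60) (I := (univ \ J).disjSum univ) (J := J.disjSum ∅) (ρ := a)
    (ρ' := ∑ t ∈ range (k + 1), ell 60 E E t - N * tri m)
    (by omega) le_rfl (by omega) (by
      rw [Finset.disjoint_left]
      rintro (i | j) <;> simp)
    (by rw [Finset.sum_range_succ] at hz1 ⊢; omega)
    (by
      rw [e0]
      exact Bd.mono le_rfl (disjSum_mono subset_rfl (empty_subset _))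
        (I0.reindex (by simpa using hI) (hμ _)))
    (by
      rw [e1]
      exact (I1.reindex hI fun _ _ => le_rfl).add_simple)
    (Bd.reindex J0 (by simpa using hJ) (hμ _)) (Bd.reindex J1 (by simpa using hJ) (hμ _))
  rw [← hv]
  refine Bd.of_extra ?_
  convert hcut using 1
  ext (i | j) <;> simp [em']

theorem big_large {n m d : ℕ} (hn : 10 ^ 10 ≤ n) (hm : n ≤ 16 * m) :
    Bd (fun _ : Fin n => m) (Dsp (d + 1) (d + 1)) univ (tri (d + 1) - n * tri m) := by
  have hT1 : 1 ≤ tri m := tri_mono (a := 1) (by omega)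
  obtain ⟨d₀, -, -, h1, h2⟩ := exists_step (f := fun z => n * tri m < tri (z + 1)) (a := 0)
    (b := n * tri m) (by simp only [tri]; nlinarith) (by simp only [tri]; omega) (Nat.zero_le _)
  have h3 : tri (d₀ + 1 + 1) = tri (d₀ + 1) + (d₀ + 1 + 1) := rfl
  rcases le_or_gt d d₀ with h | h
  · have h4 := big_crit (E := d₀ + 1) hn hm (by omega) (by omega)
    have h5 := tri_mono (show d + 1 ≤ d₀ + 1 by omega)
    rw [show tri (d₀ + 1) - n * tri m = 0 by omega] at h4
    rw [show tri (d + 1) - n * tri m = 0 by omega]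
    exact Bd.mono (Dsp_mono (by omega)) subset_rfl h4
  · induction d, h using Nat.le_induction with
    | base => exact big_crit (E := d₀ + 1 + 1) hn hm (by omega) (by omega)
    | succ d hd ih =>
      have h4 := tri_mono (show d₀ + 1 + 1 ≤ d + 1 by omega)
      have h5 : tri (d + 1 + 1) = tri (d + 1) + (d + 1 + 1) := rfl
      rw [show tri (d + 1 + 1) - n * tri m = tri (d + 1) - n * tri m + (d + 1 + 1) by omega]
      exact ih.succ_deg

theorem homogeneous_all {n m d : ℕ} (hn : 10 ^ 10 ≤ n) (hm0 : 0 < m) :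
    ∃ F : MvPolynomial (Fin n × Fin 2) ℂ, F ≠ 0 ∧
      ∀ p : Fin n → Fin 2 → ℂ,
        MvPolynomial.eval (fun ij : Fin n × Fin 2 => p ij.1 ij.2) F ≠ 0 →
        ((Module.finrank ℂ
            ↥(MvPolynomial.restrictTotalDegree (Fin 2) ℂ d ⊓
              ⨅ i : Fin n,
                ((RingHom.ker (MvPolynomial.eval (p i))) ^ m).restrictScalars ℂ) : ℤ) - 1)
          = max (-1) (((d * (d + 3) / 2 : ℕ) : ℤ) - n * ((m * (m + 1) / 2 : ℕ) : ℤ)) := by
  have h1 : Bd (fun _ : Fin n => m) (Dsp (d + 1) (d + 1)) univ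
      (tri (d + 1) - mass (fun _ : Fin n => m) univ) := by
    rw [mass_const]
    rcases le_total n (16 * m) with h2 | h2
    · exact big_large hn h2
    · exact hom_small2 (by omega) hm0 h2
  have := expected_of_bd _ h1
  simpa only [sum_const, card_univ, Fintype.card_fin, nsmul_eq_mul] using this

end Pool.Agent.Lib.MP_6e81d8_ag.H36
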