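import Pool.Agent.Lib.MP_6e81d8_ag.H36.Open

/-!
The leading form of a polynomial over `K[T]` for row weights `lam`.
-/

set_option autoImplicit false

namespace Pool.Agent.Lib.MP_6e81d8_ag.H36

open Polynomial Finset H88
open scoped Polynomial.Bivariate

lemma lead_van_slice {K : Type} [Field K] {m : ℕ} {x c : K} {G : K[X][X][Y]}
    (h : H88.Van m (C x) (C c) G) (j : ℕ) : H88.Van m x c (slice j G) := by
  rw [van_iff_cf] at h ⊢
  intro i k hik
  rw [cf_sh_slice, h i k hik, coeff_zero]

theorem lead {K : Type} [Field K] (H : ℕ) (lam : ℕ → ℕ) (G : K[X][X][Y]) (hG : G ≠ 0)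
    (hrow : ∀ i k, H88.cf G i k ≠ 0 → k < H) :
    ∃ g : ℕ → K[X], (∃ k < H, g k ≠ 0) ∧ (∀ k i, (g k).coeff i ≠ 0 → H88.cf G i k ≠ 0) ∧
      (∀ (φ : ℕ → ℕ) (x : K), Cnd φ (C x) 0 G → ∀ k, (X - C x) ^ φ k ∣ g k) ∧
      ∀ (μ v k₀ : ℕ) (x c : K) (T U : Finset ℕ), H88.Van μ (C x) (C c * X ^ v) G →
        (∀ k ∈ T, v * k + lam k₀ = v * k₀ + lam k) →
        (∀ k < H, k ∉ T → k ∉ U → v * k + lam k₀ < v * k₀ + lam k) →
        H88.Van (μ - U.card) x c
          (∑ k ∈ T, monomial k (C (∏ u ∈ U, ((k : K) - u)) * g k)) := by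
  classical
  let s : Finset (Σ _ : ℕ, ℕ) := G.support.sigma (fun k => (G.coeff k).support)
  have hs : ∀ i k, H88.cf G i k ≠ 0 → (⟨k, i⟩ : Σ _ : ℕ, ℕ) ∈ s := by
    intro i k hik
    simp only [s, mem_sigma, mem_support_iff]
    refine ⟨fun h0 => hik ?_, hik⟩
    rw [H88.cf, h0, coeff_zero]
  have hsne : s.Nonempty := by
    obtain ⟨i, k, hik⟩ := exists_cf_ne_zero hG
    exact ⟨_, hs i k hik⟩
  obtain ⟨⟨k₁, i₁⟩, hmem, hmax⟩ := exists_max_image s
    (fun z => (H88.cf G z.2 z.1).natDegree + lam z.1) hsne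
  have h₁ : H88.cf G i₁ k₁ ≠ 0 := by
    simp only [s, mem_sigma, mem_support_iff] at hmem
    exact hmem.2
  obtain ⟨w, hw⟩ : ∃ w, w = (H88.cf G i₁ k₁).natDegree + lam k₁ := ⟨_, rfl⟩
  have hle : ∀ i k, H88.cf G i k ≠ 0 → (H88.cf G i k).natDegree + lam k ≤ w := by
    intro i k hik
    rw [hw]
    exact hmax _ (hs i k hik)
  let g : ℕ → K[X] := fun k => if lam k ≤ w then (slice (w - lam k) G).coeff k else 0
  have hgc : ∀ k i, (g k).coeff i = if lam k ≤ w then (H88.cf G i k).coeff (w - lam k) else 0 := by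
    intro k i
    simp only [g]
    split_ifs with h
    · exact cf_slice _ G i k
    · exact coeff_zero _
  refine ⟨g, ⟨k₁, hrow _ _ h₁, ?_⟩, ?_, ?_, ?_⟩
  · intro h0
    have := hgc k₁ i₁
    rw [h0, coeff_zero, if_pos (by omega), show w - lam k₁ = (H88.cf G i₁ k₁).natDegree by omega]
      at this
    exact leadingCoeff_ne_zero.mpr h₁ this.symm
  · intro k i hi h0
    rw [hgc, h0, coeff_zero, ite_self] at hi
    exact hi rfl
  · intro φ x hc k
    simp only [g]
    split_ifs with h
    · have h2 : Cnd φ x 0 (slice (w - lam k) G) := by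
        intro i k' hi
        rw [cf_sh_slice, C_0, hc i k' hi, coeff_zero]
      exact cnd_wall.mp h2 k
    · exact dvd_zero _
  · intro μ v k₀ x c T U hv hT hrest
    by_cases hk₀ : lam k₀ ≤ w + v * k₀
    · obtain ⟨G', hG'v, hG'c⟩ := exists_euler hv U
      have hq : ∀ k : ℕ, (∏ u ∈ U, ((k : K[X]) - u)) = C (∏ u ∈ U, ((k : K) - u)) := by
        intro k
        simp [map_prod]
      have h2 : H88.Van (μ - U.card) ((1 : K[X]) * C x) (X ^ v * C c) G' := by
        rwa [one_mul, mul_comm]
      have h3 := lead_van_slice (van_scale h2) (w + v * k₀ - lam k₀)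
      convert h3 using 1
      apply cf_ext
      intro i k
      have h4 : H88.cf G' i k = C (∏ u ∈ U, ((k : K) - u)) * H88.cf G i k := by
        unfold H88.cf
        rw [hG'c, hq, coeff_C_mul]
      rw [cf_slice, cf_scale, one_pow, one_mul, ← pow_mul, coeff_X_pow_mul', h4, coeff_C_mul]
      unfold H88.cf
      rw [finsetSum_coeff]
      simp only [coeff_monomial]
      rw [Finset.sum_ite_eq']
      by_cases hkT : k ∈ T
      · have h5 := hT k hkT
        rw [if_pos hkT, coeff_C_mul, hgc]
        by_cases h6 : lam k ≤ w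
        · rw [if_pos h6, if_pos (by omega), show w + v * k₀ - lam k₀ - v * k = w - lam k by omega]
          rfl
        · rw [if_neg h6, if_neg (by omega), mul_zero]
      · rw [if_neg hkT, coeff_zero]
        split_ifs with h6
        · by_cases hkU : k ∈ U
          · rw [Finset.prod_eq_zero hkU (sub_self _), zero_mul]
          · by_cases hik : H88.cf G i k = 0
            · unfold H88.cf at hik
              rw [hik, coeff_zero, mul_zero]
            · have h7 := hrest k (hrow _ _ hik) hkT hkU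
              have h8 := hle i k hik
              have h9 : (H88.cf G i k).coeff (w + v * k₀ - lam k₀ - v * k) = 0 :=
                coeff_eq_zero_of_natDegree_lt (by omega)
              unfold H88.cf at h9
              rw [h9, mul_zero]
        · rfl
    · rw [Finset.sum_eq_zero]
      · exact van_zero _ _ _
      · intro k hk
        have h5 := hT k hk
        have h6 : g k = 0 := by
          simp only [g]
          rw [if_neg (by omega)]
        rw [h6, mul_zero, map_zero]

end Pool.Agent.Lib.MP_6e81d8_ag.H36
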