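import Pool.Agent.Lib.MP_6e81d8_ag.ExpFinal

set_option autoImplicit false

namespace Pool.Agent.Lib.MP_6e81d8_ag.H36.OldHomogeneousExp

theorem result :
  ∀ (n m d : ℕ), 10 ^ 30 ≤ n → 0 < m →
    (m : ℝ) ≤ max (Real.sqrt n ^ 5 / (10 ^ 14 * Real.log n ^ 3))
      (Real.exp (Real.sqrt n / 10 ^ 39)) →
    ∃ F : MvPolynomial (Fin n × Fin 2) ℂ, F ≠ 0 ∧
      ∀ p : Fin n → Fin 2 → ℂ,
        MvPolynomial.eval (fun ij : Fin n × Fin 2 => p ij.1 ij.2) F ≠ 0 →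
        ((Module.finrank ℂ
            ↥(MvPolynomial.restrictTotalDegree (Fin 2) ℂ d ⊓
              ⨅ i : Fin n,
                ((RingHom.ker (MvPolynomial.eval (p i))) ^ m).restrictScalars ℂ) : ℤ) - 1)
          = max (-1) (((d * (d + 3) / 2 : ℕ) : ℤ) - n * ((m * (m + 1) / 2 : ℕ) : ℤ)) :=
  fun _ _ _ hn hm h => Pool.Agent.Lib.MP_6e81d8_ag.homogeneous_exp hn hm h

end Pool.Agent.Lib.MP_6e81d8_ag.H36.OldHomogeneousExp
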