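import Pool.Agent.Lib.MP_6e81d8_ag.H36.Defs

/-!
Basic properties of the conditions; emptiness is an open condition on the positions.
-/

set_option autoImplicit false

namespace Pool.Agent.Lib.MP_6e81d8_ag.H36

open Polynomial Finset H88
open scoped Polynomial.Bivariate

section Ring

variable {A ι : Type} [CommRing A]

theorem cnd_iff_van {μ : ℕ} {a b : A} {f : A[X][Y]} :
    Cnd (fun k => μ - k) a b f ↔ H88.Van μ a b f := by
  rw [van_iff_cf]
  exact ⟨fun h i k hik => h i k (show i < μ - k by omega),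
    fun h i k (hik : i < μ - k) => h i k (by omega)⟩

theorem open_cf_sh (a b : A) (f : A[X][Y]) (i k : ℕ) :
    H88.cf (H88.sh a b f) i k = (taylor a ((taylor (C b) f).coeff k)).coeff i := by
  have : H88.sh a b = (sub2 (X + C a) Y).comp (taylorAlgHom (C b) : A[X][Y] →+* A[X][Y]) := by
    apply Polynomial.ringHom_ext
    · intro p
      simp
    · simp
  rw [this, H88.cf, RingHom.comp_apply, coeff_sub2_Y]
  rfl

theorem open_dvd_iff (x : A) (k : ℕ) (f : A[X]) :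
    (X - C x) ^ k ∣ f ↔ ∀ s < k, (taylor x f).coeff s = 0 := by
  rw [← X_pow_dvd_iff]
  constructor
  · intro h
    simpa using map_dvd (taylorAlgHom x) h
  · intro h
    simpa [taylor_taylor, sub_eq_add_neg] using map_dvd (taylorAlgHom (-x)) h

theorem cnd_iff_dvd {φ : ℕ → ℕ} {a b : A} {f : A[X][Y]} :
    Cnd φ a b f ↔ ∀ k, (X - C a) ^ φ k ∣ (taylor (C b) f).coeff k := by
  simp only [Cnd, open_dvd_iff, open_cf_sh]
  exact ⟨fun h k i hi => h i k hi, fun h i k hi => h k i hi⟩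

theorem cnd_wall {φ : ℕ → ℕ} {a : A} {f : A[X][Y]} :
    Cnd φ a 0 f ↔ ∀ k, (X - C a) ^ φ k ∣ f.coeff k := by
  simp only [cnd_iff_dvd, C_0, taylor_zero]

theorem open_row {H : ℕ} (a b : A) {f : A[X][Y]} (hf : ∀ i k, H88.cf f i k ≠ 0 → k < H) (i : ℕ)
    {k : ℕ} (hk : H ≤ k) : H88.cf (H88.sh a b f) i k = 0 := by
  have h1 : f.degree < H := by
    rw [degree_lt_iff_coeff_zero]
    intro m hm
    ext j
    by_contra e
    exact absurd (hf j m e) (not_lt.2 hm)
  rw [← degree_taylor f (C b), degree_lt_iff_coeff_zero] at h1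
  rw [open_cf_sh, h1 k hk, map_zero, coeff_zero]

/-- Only the rows that can occur matter. -/
theorem Cnd.mono {φ φ' : ℕ → ℕ} {H : ℕ} {a b : A} {f : A[X][Y]}
    (hf : ∀ i k, H88.cf f i k ≠ 0 → k < H) (h : ∀ k < H, φ' k ≤ φ k) (hc : Cnd φ a b f) :
    Cnd φ' a b f := fun i k hi => by
  by_cases e : k < H
  · exact hc i k (hi.trans_le (h k e))
  · exact open_row a b hf i (not_lt.1 e)

theorem EmpC.mono {D D' : ℕ → ℕ → Prop} {φ φ' : ι → ℕ → ℕ} {a b : ι → A} {H : ℕ}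
    (hrow : ∀ i k, D i k → k < H) (hD : ∀ i k, D i k → D' i k)
    (hφ : ∀ j, ∀ k < H, φ' j k ≤ φ j k) (h : EmpC D' φ' a b) : EmpC D φ a b :=
  fun f hf hc => h f (fun i k e => hD i k (hf i k e)) fun j =>
    (hc j).mono (fun i k e => hrow i k (hf i k e)) (hφ j)

/-- The matrix of the conditions on the rows below `N`. -/
noncomputable def openMat (s : Finset (ℕ × ℕ)) (N : ℕ) (φ : ι → ℕ → ℕ) (a b : ι → A) :
    Matrix (Σ j : ι, Σ k : Fin N, Fin (φ j k)) s A :=
  Matrix.of fun r x => H88.cf (H88.sh (a r.1) (b r.1) (mon A x.1.1 x.1.2)) r.2.2.val r.2.1.val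

theorem open_mat_map {B : Type} [CommRing B] (g : A →+* B) (s : Finset (ℕ × ℕ)) (N : ℕ)
    (φ : ι → ℕ → ℕ) (a b : ι → A) :
    (openMat s N φ a b).map g = openMat s N φ (fun j => g (a j)) (fun j => g (b j)) := by
  ext r x
  simp only [openMat, Matrix.map_apply, Matrix.of_apply]
  rw [← cf_map, sh_map, mon_map]

theorem open_sup {D : ℕ → ℕ → Prop} {s : Finset (ℕ × ℕ)} (hs : ∀ i k, (i, k) ∈ s ↔ D i k)
    (c : s → A) : Sup D (comb s c) := by
  intro i k hik
  rw [cf_comb] at hik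
  split_ifs at hik with h2
  · exact (hs i k).mp h2
  · exact absurd rfl hik

theorem open_iff {D : ℕ → ℕ → Prop} {s : Finset (ℕ × ℕ)} (hs : ∀ i k, (i, k) ∈ s ↔ D i k) {N : ℕ}
    (hN : ∀ i k, D i k → i < N ∧ k < N) (φ : ι → ℕ → ℕ) (a b : ι → A) :
    EmpC D φ a b ↔ ∀ c, (openMat s N φ a b).mulVec c = 0 → c = 0 := by
  have key : ∀ c : s → A, (openMat s N φ a b).mulVec c = 0 ↔
      ∀ j, Cnd (φ j) (a j) (b j) (comb s c) := fun c => by
    constructor
    · intro h j i k hik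
      by_cases e : k < N
      · rw [cf_sh_comb]
        exact congrFun h ⟨j, ⟨k, e⟩, ⟨i, hik⟩⟩
      · exact open_row _ _ (fun i k e => (hN i k (open_sup hs c i k e)).2) i (not_lt.1 e)
    · intro h
      funext r
      have := h r.1 _ _ r.2.2.2
      rw [cf_sh_comb] at this
      exact this
  constructor
  · intro h c hc
    have h1 : comb s c = 0 := h _ (open_sup hs c) ((key c).1 hc)
    funext x
    have := cf_comb s c x.1.1 x.1.2
    rw [h1, dif_pos x.2] at this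
    simpa using this.symm
  · intro h f hf hv
    have h1 : comb s (fun x => H88.cf f x.1.1 x.1.2) = f := by
      apply cf_ext
      intro i k
      rw [cf_comb]
      split_ifs with h2
      · rfl
      · by_contra h3
        exact h2 ((hs i k).mpr (hf i k (fun h4 => h3 h4.symm)))
    have h2 := h (fun x => H88.cf f x.1.1 x.1.2) (by rw [key, h1]; exact hv)
    rw [← h1, h2]
    simp [comb]

theorem empC_open [Fintype ι] [IsDomain A] {D : ℕ → ℕ → Prop} (hD : Bdd D) {φ : ι → ℕ → ℕ}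
    {a b : ι → A} (h : EmpC D φ a b) :
    ∃ E : A, E ≠ 0 ∧ ∀ (K : Type) [CommRing K] [NoZeroDivisors K] (g : A →+* K), g E ≠ 0 →
      EmpC D φ (fun j => g (a j)) (fun j => g (b j)) := by
  classical
  obtain ⟨s, hs⟩ := hD.exists_finset
  obtain ⟨N, hN⟩ := hD
  rw [open_iff hs hN] at h
  obtain ⟨E, hE, H⟩ := ker_trivial_open _ h
  refine ⟨E, hE, fun K _ _ g hg => ?_⟩
  rw [open_iff hs hN, ← open_mat_map]
  exact H K g hg

theorem empC_generic [Fintype ι] [IsDomain A] {K : Type} [Field K] (g : A →+* K) (σ : K →+* A)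
    (hσ : ∀ x, g (σ x) = x) {D : ℕ → ℕ → Prop} (hD : Bdd D) {φ : ι → ℕ → ℕ} {a b : ι → A}
    (h : EmpC D φ (fun j => g (a j)) (fun j => g (b j))) : EmpC D φ a b := by
  classical
  obtain ⟨s, hs⟩ := hD.exists_finset
  obtain ⟨N, hN⟩ := hD
  rw [open_iff hs hN, ← open_mat_map] at h
  rw [open_iff hs hN]
  exact ker_trivial_generic g σ hσ _ h

end Ring

variable {ι : Type} [Fintype ι]

theorem ge_of_family {D : ℕ → ℕ → Prop} (hD : Bdd D) {φ : ι → ℕ → ℕ} {J : ι → Bool}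
    {a b : ι → ℚ[X]} (hb : ∀ j, J j = false → b j = 0) (h : EmpC D φ a b) : GE D φ J := by
  obtain ⟨E, hE, H⟩ := empC_open hD h
  obtain ⟨t, ht⟩ := exists_eval_ne_zero hE
  exact ⟨_, _, fun j hj => by simp [hb j hj], H ℚ (evalRingHom t) ht⟩

theorem EmpC.complex {D : ℕ → ℕ → Prop} (hD : Bdd D) {φ : ι → ℕ → ℕ} {a b : ι → ℚ}
    (h : EmpC D φ a b) : EmpC D φ (fun j => (a j : ℂ)) (fun j => (b j : ℂ)) := by
  obtain ⟨E, hE, H⟩ := empC_open hD h
  exact H ℂ (Rat.castHom ℂ) (by simpa using hE)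

theorem open_path (x y z : ℚ) : ∃ q : ℚ[X], q.eval 0 = x ∧ q.eval 1 = y ∧ q.eval 2 = z :=
  ⟨C x + C (y - x) * X + C ((z - 2 * y + x) / 2) * X * (X - 1), by simp, by simp, by
    simp only [eval_add, eval_mul, eval_C, eval_X, eval_sub, eval_one]
    ring⟩

theorem open_one {D : ℕ → ℕ → Prop} (hD : Bdd D) {φ : ι → ℕ → ℕ} {J : ι → Bool} {a b : ι → ℚ}
    (hb : ∀ j, J j = false → b j = 0) (h : EmpC D φ a b) {p q : ι → ℚ[X]} {t : ℚ}
    (hp : ∀ j, (p j).eval t = a j) (hq : ∀ j, (q j).eval t = b j) :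
    ∃ E : ℚ[X], E ≠ 0 ∧ ∀ u : ℚ, E.eval u ≠ 0 →
      EmpC D φ (fun j => (p j).eval u) (fun j => if J j then (q j).eval u else 0) := by
  have h1 : EmpC D φ p fun j => if J j then q j else 0 := by
    refine empC_generic (evalRingHom t) C (fun x => eval_C) hD ?_
    have e1 : (fun j => evalRingHom t (p j)) = a := funext hp
    have e2 : (fun j => evalRingHom t (if J j then q j else 0)) = b := funext fun j => by
      cases e : J j
      · simp [hb j e]
      · simp [hq j]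
    rwa [e1, e2]
  obtain ⟨E, hE, H⟩ := empC_open hD h1
  refine ⟨E, hE, fun u hu => ?_⟩
  convert H ℚ (evalRingHom u) hu using 2 with j j
  · rfl
  · cases J j <;> simp

/-- Two systems on the same places are empty at one common general position. -/
theorem GE.both {D₁ D₂ : ℕ → ℕ → Prop} (h₁ : Bdd D₁) (h₂ : Bdd D₂) {φ₁ φ₂ : ι → ℕ → ℕ}
    {J₁ J₂ : ι → Bool} (g₁ : GE D₁ φ₁ J₁) (g₂ : GE D₂ φ₂ J₂) :
    ∃ a c : ι → ℚ, Function.Injective a ∧ (∀ j, c j ≠ 0) ∧
      EmpC D₁ φ₁ a (fun j => if J₁ j then c j else 0) ∧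
      EmpC D₂ φ₂ a (fun j => if J₂ j then c j else 0) := by
  classical
  obtain ⟨a₁, b₁, w₁, e₁⟩ := g₁
  obtain ⟨a₂, b₂, w₂, e₂⟩ := g₂
  choose p p0 p1 p2 using fun j => open_path (a₁ j) (a₂ j) ((Fintype.equivFin ι j : ℕ) : ℚ)
  choose q q0 q1 q2 using fun j => open_path (b₁ j) (b₂ j) 1
  obtain ⟨E₁, hE₁, H₁⟩ := open_one h₁ w₁ e₁ p0 q0
  obtain ⟨E₂, hE₂, H₂⟩ := open_one h₂ w₂ e₂ p1 q1
  have k1 : ∏ x ∈ (univ : Finset ι).offDiag, (p x.1 - p x.2) ≠ 0 := by
    refine prod_ne_zero_iff.2 fun x hx e => (mem_offDiag.1 hx).2.2 ?_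
    have := congrArg (eval 2) (sub_eq_zero.1 e)
    rw [p2, p2, Nat.cast_inj] at this
    exact (Fintype.equivFin ι).injective (Fin.ext this)
  have k2 : ∏ j, q j ≠ 0 := prod_ne_zero_iff.2 fun j _ e => by simpa [e] using q2 j
  obtain ⟨t, ht⟩ := exists_eval_ne_zero (mul_ne_zero (mul_ne_zero hE₁ hE₂) (mul_ne_zero k1 k2))
  simp only [eval_mul, eval_prod, mul_ne_zero_iff, prod_ne_zero_iff, eval_sub] at ht
  obtain ⟨⟨t1, t2⟩, t3, t4⟩ := ht
  refine ⟨fun j => (p j).eval t, fun j => (q j).eval t, fun i j e => ?_,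
    fun j => t4 j (mem_univ j), H₁ t t1, H₂ t t2⟩
  by_contra hij
  exact t3 (i, j) (mem_offDiag.2 ⟨mem_univ _, mem_univ _, hij⟩) (sub_eq_zero.2 e)

end Pool.Agent.Lib.MP_6e81d8_ag.H36
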