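import Pool.Agent.Lib.MP_6e81d8_ag.H36.Open

/-!
The vertical splitting: groups of places collide, each group at its own node.
-/

set_option autoImplicit false

namespace Pool.Agent.Lib.MP_6e81d8_ag.H36

open Polynomial Finset H88
open scoped Polynomial.Bivariate

lemma split_sh_scale {R : Type} [CommRing R] (e₁ e₂ a b : R) (f : R[X][Y]) :
    H88.sh a b (sub2 (C e₁ * X) (C (C e₂) * Y) f) =
      sub2 (C e₁ * X) (C (C e₂) * Y) (H88.sh (e₁ * a) (e₂ * b) f) := by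
  have : (H88.sh a b).comp (sub2 (C e₁ * X) (C (C e₂) * Y)) =
      (sub2 (C e₁ * X) (C (C e₂) * Y)).comp (H88.sh (e₁ * a) (e₂ * b)) := by
    apply Polynomial.ringHom_ext
    · intro p
      simp [comp_assoc, mul_add]
    · simp [mul_add]
  exact congrArg (fun g : R[X][Y] →+* R[X][Y] => g f) this

lemma split_cnd_slice {K : Type} [Field K] {φ : ℕ → ℕ} {a b : K} {G : K[X][X][Y]}
    (h : Cnd φ (C a) (C b) G) (j : ℕ) : Cnd φ a b (slice j G) := by
  intro i k hik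
  rw [cf_sh_slice, h i k hik, coeff_zero]

lemma split_row {R : Type} [CommRing R] {H : ℕ} {a : R} {f : R[X][Y]}
    (hf : ∀ i k, H88.cf f i k ≠ 0 → k < H) {i k : ℕ} (h : H88.cf (H88.sh a 0 f) i k ≠ 0) :
    k < H := by
  by_contra hk
  have h0 : f.coeff k = 0 := by
    ext i'
    by_contra h1
    exact hk (hf i' k h1)
  rw [H88.sh, C_0, C_0, add_zero, H88.cf, coeff_sub2_Y, h0] at h
  simp at h

theorem vsplit {ι β : Type} {κ : β → Type} [Fintype ι] [Fintype β] [∀ b, Fintype (κ b)]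
    {D : ℕ → ℕ → Prop} (hD : Bdd D) {H : ℕ} (hrow : ∀ i k, D i k → k < H) (A E θ : β → ℕ)
    {φ₀ : ι → ℕ → ℕ} {J₀ : ι → Bool} {ψ : β → ℕ → ℕ}
    (hψ : ∀ b s k, A b * s + E b * k < θ b → s < ψ b k)
    (hψ' : ∀ b s k, s < ψ b k → A b * s + E b * k < θ b)
    {φ : ∀ b, κ b → ℕ → ℕ} {J : ∀ b, κ b → Bool}
    (h₀ : GE D (Sum.elim φ₀ ψ) (Sum.elim J₀ fun _ => false))
    (h₁ : ∀ b, GE (fun s k => k < H ∧ s < ψ b k) (φ b) (J b)) :
    GE D (Sum.elim φ₀ fun x : Σ b, κ b => φ x.1 x.2) (Sum.elim J₀ fun x => J x.1 x.2) := by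
  classical
  obtain ⟨a₀, b₀, hb₀, hE₀⟩ := h₀
  choose ξ η hη hE₁ using h₁
  refine ge_of_family hD
    (a := Sum.elim (fun j => C (a₀ (Sum.inl j)))
      fun x : Σ b, κ b => X ^ A x.1 * C (ξ x.1 x.2) + C (a₀ (Sum.inr x.1)))
    (b := Sum.elim (fun j => C (b₀ (Sum.inl j)))
      fun x : Σ b, κ b => X ^ E x.1 * C (η x.1 x.2)) ?_ ?_
  · rintro (j | x) hj
    · simp [hb₀ (Sum.inl j) hj]
    · simp [hη x.1 x.2 hj]
  intro G hG hc
  by_contra hne
  have hex : ∃ v, slice v G ≠ 0 := by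
    obtain ⟨i, k, hik⟩ := exists_cf_ne_zero hne
    refine ⟨(H88.cf G i k).natDegree, fun h0 => leadingCoeff_ne_zero.mpr hik ?_⟩
    rw [leadingCoeff, ← cf_slice, h0, cf_zero]
  obtain ⟨b, hb⟩ : ∃ b, ¬ Cnd (ψ b) (a₀ (Sum.inr b)) 0 (slice (Nat.find hex) G) := by
    by_contra hall
    push Not at hall
    refine Nat.find_spec hex (hE₀ _ (hG.slice _) ?_)
    rintro (j | b)
    · exact split_cnd_slice (hc (Sum.inl j)) _
    · rw [hb₀ (Sum.inr b) rfl]
      exact hall b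
  simp only [Cnd, not_forall] at hb
  obtain ⟨s₀, k₀, hs₀, h0⟩ := hb
  rw [cf_sh_slice, C_0] at h0
  set v₀ := Nat.find hex with hv₀
  set G₁ := H88.sh (C (a₀ (Sum.inr b))) 0 G with hG₁
  have hlow : ∀ i k u, u < v₀ → (H88.cf G₁ i k).coeff u = 0 := by
    intro i k u hu
    have h1 : slice u G = 0 := not_not.1 (Nat.find_min hex hu)
    rw [hG₁, ← C_0, ← cf_sh_slice, h1, map_zero, cf_zero]
  set G₂ := sub2 (C (X ^ A b) * X) (C (C (X ^ E b)) * Y) G₁ with hG₂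
  have hcf : ∀ i k, H88.cf G₂ i k = X ^ (A b * i + E b * k) * H88.cf G₁ i k := by
    intro i k
    rw [hG₂, cf_scale, ← pow_mul, ← pow_mul, ← pow_add]
  have hθ := hψ' b s₀ k₀ hs₀
  have hz : slice (v₀ + (A b * s₀ + E b * k₀)) G₂ = 0 := by
    refine hE₁ b _ (fun i k hik => ?_) (fun x => split_cnd_slice (fun i k hik => ?_) _)
    · rw [cf_slice, hcf, coeff_X_pow_mul'] at hik
      split_ifs at hik with hle
      · refine ⟨split_row (a := C (a₀ (Sum.inr b))) (i := i)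
          (fun i k h => hrow i k (hG i k h)) (fun h => hik (by rw [hG₁, h, coeff_zero])),
          hψ b i k ?_⟩
        by_contra hlt
        exact hik (hlow i k _ (by omega))
      · exact absurd rfl hik
    · have h1 := hc (Sum.inr ⟨b, x⟩) i k hik
      rw [hG₂, split_sh_scale, cf_scale, hG₁, sh_sh, add_zero]
      exact mul_eq_zero_of_right _ h1
  apply h0
  rw [← coeff_X_pow_mul _ (A b * s₀ + E b * k₀), ← hcf, ← cf_slice, hz, cf_zero]

end Pool.Agent.Lib.MP_6e81d8_ag.H36
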