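import Pool.Agent.Lib.MP_6e81d8_ag.H36.Bubble
import Pool.Agent.Lib.MP_6e81d8_ag.H36.Split
import Pool.Agent.Lib.MP_6e81d8_ag.H36.Elm
import Pool.Agent.Lib.MP_6e81d8_ag.H36.Dual

/-!
The two-sided theorem on trapezoids, for all large multiplicities.
-/

set_option autoImplicit false

namespace Pool.Agent.Lib.MP_6e81d8_ag.H36

open Polynomial Finset

theorem trap_node {H : ℕ} (hH : 0 < H) (E θ : ℕ) :
    ∃ ψ : ℕ → ℕ, ∀ s k, s < ψ k ↔ H * s + E * k < θ := by
  refine ⟨fun k => (θ - E * k + H - 1) / H, fun s k => ?_⟩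
  rw [Nat.lt_iff_add_one_le, Nat.le_div_iff_mul_le hH, add_mul, one_mul, mul_comm s H]
  omega

theorem trap_dist {x δ : ℝ} (n : ℤ) (h1 : n + δ ≤ x) (h2 : x ≤ n + 1 - δ) (y : ℤ) :
    δ ≤ |(y : ℝ) - x| := by
  rcases le_or_gt y n with h | h
  · have : (y : ℝ) ≤ n := by exact_mod_cast h
    exact le_abs.2 (Or.inr (by linarith))
  · have : (n : ℝ) + 1 ≤ y := by exact_mod_cast h
    exact le_abs.2 (Or.inl (by linarith))

/-- The numerical consequences of the window for `(P + Q) / P`. -/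
theorem trap_window {P Q : ℕ} (hP : 2000 ≤ P) (w1 : 248 * P ≤ 100 * (P + Q))
    (w2 : 100 * (P + Q) ≤ 259 * P) :
    (2.48 : ℝ) ≤ (P + Q) / P ∧ ((P : ℝ) + Q) / P ≤ 2.59 ∧ (1.62 : ℝ) ≤ (P + Q) / Q ∧
      ((P : ℝ) + Q) / Q ≤ 1.68 ∧ (22 / 57 : ℝ) ≤ (P + 1) / (P + Q) ∧
      ((P : ℝ) + 1) / (P + Q) ≤ 23 / 57 := by
  have a0 : (2000 : ℝ) ≤ P := by exact_mod_cast hP
  have a1 : (248 * P : ℝ) ≤ 100 * (P + Q) := by exact_mod_cast w1
  have a2 : (100 * (P + Q) : ℝ) ≤ 259 * P := by exact_mod_cast w2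
  have hP' : (0 : ℝ) < P := by linarith
  have hQ' : (0 : ℝ) < Q := by linarith
  have hH : (0 : ℝ) < P + Q := by linarith
  refine ⟨?_, ?_, ?_, ?_, ?_, ?_⟩
  · rw [le_div_iff₀ hP']; linarith
  · rw [div_le_iff₀ hP']; linarith
  · rw [le_div_iff₀ hQ']; linarith
  · rw [div_le_iff₀ hQ']; linarith
  · rw [le_div_iff₀ hH]; linarith
  · rw [div_le_iff₀ hH]; linarith

theorem trap_cap {P Q J A B g : ℕ} (hP : 2000 ≤ P) (w1 : 248 * P ≤ 100 * (P + Q))
    (w2 : 100 * (P + Q) ≤ 259 * P) (hg : 4 ≤ g) (h1 : 436 * g ≤ 100 * J)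
    (h2 : 35 * J ≤ 114 * A + 141 * g)
    (h4 : (J : ℝ) * ((P + 1) / (P + Q)) ≤ 2 * B + 1.62 * g) :
    Cap P Q J A B g 0 (A - B + J * ((P + 1) / (P + Q))) 0 := by
  obtain ⟨x1, x2, y1, y2, t1, t2⟩ := trap_window hP w1 w2
  have hH : (0 : ℝ) < P + Q := by
    have : (2000 : ℝ) ≤ P := by exact_mod_cast hP
    positivity
  have e1 : (J : ℝ) * (Q - 1) / (P + Q) = J - J * ((P + 1) / (P + Q)) := by field_simp; ring
  have g0 : (4 : ℝ) ≤ g := by exact_mod_cast hg
  have J0 : (0 : ℝ) ≤ J := Nat.cast_nonneg J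
  have a1 : (436 * g : ℝ) ≤ 100 * J := by exact_mod_cast h1
  have a2 : (35 * J : ℝ) ≤ 114 * A + 141 * g := by exact_mod_cast h2
  have b1 := mul_le_mul_of_nonneg_left x1 (show (0 : ℝ) ≤ g by linarith)
  have b2 := mul_le_mul_of_nonneg_left x2 (show (0 : ℝ) ≤ g by linarith)
  have b3 := mul_le_mul_of_nonneg_left y1 (show (0 : ℝ) ≤ g by linarith)
  have b4 := mul_le_mul_of_nonneg_left y2 (show (0 : ℝ) ≤ g by linarith)
  have b5 := mul_le_mul_of_nonneg_left t1 J0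
  have b6 := mul_le_mul_of_nonneg_left t2 J0
  refine ⟨by omega, by omega, by rw [mul_div_assoc]; simp, ?_, ?_, ?_, ?_, Or.inl ⟨fun y => ?_,
    fun y => ?_⟩⟩
  · rw [e1, mul_div_assoc]; linarith
  · rw [e1, mul_div_assoc]; linarith
  · rw [mul_div_assoc, mul_div_assoc]; linarith
  · rw [mul_div_assoc, mul_div_assoc]; linarith
  · have := trap_dist (δ := 1 / 4) 2 (x := (P + Q) / P) (by push_cast; linarith)
      (by push_cast; linarith) y
    nlinarith
  · have := trap_dist (δ := 1 / 4) 1 (x := (P + Q) / Q) (by push_cast; linarith)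
      (by push_cast; linarith) y
    nlinarith

/-- The bubble theorem for the load `φ₀` of average `M`. -/
def Bub (P Q : ℕ) (φ₀ : ℕ → ℕ) (M : ℝ) : Prop :=
  ∀ (J A B g : ℕ) (κ a : ℝ), Cap P Q J A B g 0 κ 0 → ∀ D : ℕ → ℕ → Prop, H88.Bdd D →
    (∀ s k, D s k → k < P + Q ∧ (s : ℝ) + κ * k ≤ a) →
    a + g * (P + Q) / (2 * P) < κ * (P + Q - 1) / 2 + J * M + (A + B + g) * (P + Q - 1) / 2 →
    GE D (fun x : Σ τ : Fin 5, Fin (![J, A, B, g, 0] τ) =>
        ![φ₀, fun k => P + Q - 1 - k, fun k => P + Q - 1 - k, fun k => P + Q - 1 - k, fun _ => 0]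
          x.1)
      (fun x => ![false, true, true, true, false] x.1)

theorem bub_plus (P Q : ℕ) : Bub P Q (fun k => P - k) (P * (P + 1) / (2 * (P + Q))) :=
  fun _ _ _ _ _ _ hc _ hD hD' ha =>
    bubble_plus (z := 0) hc hD hD' (fun _ _ => by simp) (by simpa using ha)

theorem bub_minus (P Q : ℕ) :
    Bub P Q (fun k => min P (P + Q - 1 - k)) (P - P * (P + 1) / (2 * (P + Q))) :=
  fun _ _ _ _ _ _ hc _ hD hD' ha =>
    bubble_minus (z := 0) hc hD hD' (fun _ _ => by simp) (by simpa using ha)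

/-- A bubble together with the load that it leaves at its node. -/
theorem trap_bubble {P Q J A B g M₂ : ℕ} {φ₀ : ℕ → ℕ} {M : ℝ} (hb : Bub P Q φ₀ M)
    (hM : (M₂ : ℝ) = 2 * (P + Q) * M) (h3 : P + Q ≤ 3 * P) (h4 : 4 ≤ P + Q) (hBA : B ≤ A)
    (hc : Cap P Q J A B g 0 (A - B + J * ((P + 1) / (P + Q))) 0) :
    ∃ (E θ : ℕ) (ψ : ℕ → ℕ), (∀ s k, s < ψ k ↔ 2 * (P + Q) * s + E * k < θ) ∧
      (∀ k : ℕ, (A - B + J * ((P + 1) / (P + Q)) : ℝ) * (P + Q - 1) / 2 + J * M +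
        (A + B + g) * (P + Q - 1) / 2 - 3 * g / 2 - (A - B + J * ((P + 1) / (P + Q))) * k ≤ ψ k) ∧
      GE (fun s k => k < P + Q ∧ s < ψ k) (fun x : Σ τ : Fin 5, Fin (![J, A, B, g, 0] τ) =>
        ![φ₀, fun k => P + Q - 1 - k, fun k => P + Q - 1 - k, fun k => P + Q - 1 - k, fun _ => 0]
          x.1)
      (fun x => ![false, true, true, true, false] x.1) := by
  obtain ⟨c, rfl⟩ := Nat.exists_eq_add_of_le hBA
  obtain ⟨w, hw⟩ := Nat.exists_eq_add_of_le h4
  have hw' : (P : ℝ) + Q = 4 + w := by exact_mod_cast hw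
  have hH : (0 : ℝ) < P + Q := by rw [hw']; positivity
  have hP' : (0 : ℝ) < P := by exact_mod_cast hc.hP
  obtain ⟨E, hE⟩ : ∃ E, E = c * (P + Q) + J * (P + 1) := ⟨_, rfl⟩
  obtain ⟨θ, hθ⟩ : ∃ θ, θ = E * (w + 3) + J * M₂ + (2 * B + c) * (w + 3) * (P + Q) +
    g * w * (P + Q) := ⟨_, rfl⟩
  obtain ⟨ψ, hψ⟩ := trap_node (H := 2 * (P + Q)) (by omega) (2 * E) θ
  generalize hκ : (((B + c : ℕ) : ℝ) - B + J * ((P + 1) / (P + Q)) : ℝ) = κ at hc ⊢
  have e1 : (E : ℝ) = κ * (P + Q) := by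
    rw [hE, ← hκ]; push_cast; field_simp; ring
  obtain ⟨z, hz⟩ : ∃ z : ℝ, z = κ * (P + Q - 1) / 2 + J * M +
    ((B + c : ℕ) + B + g) * (P + Q - 1) / 2 - 3 * g / 2 := ⟨_, rfl⟩
  have e2 : (θ : ℝ) = 2 * (P + Q) * z := by
    rw [hθ, hz]
    push_cast
    rw [e1, hM, show (w : ℝ) = P + Q - 4 by linarith]
    ring
  rw [← hz]
  refine ⟨2 * E, θ, ψ, hψ, fun k => ?_, hb _ _ _ _ κ (z - 1 / (2 * (P + Q))) hc _ ?_ ?_ ?_⟩
  · have h1 : θ ≤ 2 * (P + Q) * ψ k + 2 * E * k := not_lt.1 fun h => lt_irrefl _ ((hψ _ k).2 h)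
    have h2 : (θ : ℝ) ≤ 2 * (P + Q) * ψ k + 2 * E * k := by exact_mod_cast h1
    rw [e2, e1] at h2
    refine le_of_mul_le_mul_left ?_ hH
    linarith
  · refine ⟨P + Q + θ, fun s k h => ⟨?_, by omega⟩⟩
    have h1 := (hψ s k).1 h.2
    have h2 : s ≤ 2 * (P + Q) * s := Nat.le_mul_of_pos_left _ (by omega)
    omega
  · refine fun s k h => ⟨h.1, ?_⟩
    have h2 : (2 * (P + Q) * s + 2 * E * k + 1 : ℝ) ≤ θ := by exact_mod_cast (hψ s k).1 h.2
    rw [e2, e1] at h2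
    refine le_of_mul_le_mul_left ?_ (show (0 : ℝ) < 2 * (P + Q) by linarith)
    rw [mul_sub, mul_one_div_cancel (by linarith)]
    linarith
  · have h1 : (g : ℝ) * (P + Q) / (2 * P) ≤ 3 * g / 2 := by
      rw [div_le_div_iff₀ (by positivity) (by positivity)]
      have a1 : ((P : ℝ) + Q) ≤ 3 * P := by exact_mod_cast h3
      have := mul_le_mul_of_nonneg_left a1 (Nat.cast_nonneg (α := ℝ) g)
      linarith
    have h2 : (0 : ℝ) < 1 / (2 * (P + Q)) := by positivity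
    linarith

theorem trap_core {P Q S lam N M₂ : ℕ} {φ₀ : ℕ → ℕ} {M : ℝ} (hb : Bub P Q φ₀ M)
    (hM : (M₂ : ℝ) = 2 * (P + Q) * M) (hφ : ∀ k, φ₀ k ≤ φ₀ (k + 1) + 1) (hP : 2000 ≤ P)
    (w1 : 248 * P ≤ 100 * (P + Q)) (w2 : 100 * (P + Q) ≤ 259 * P) (hS : 2 ≤ S)
    (hN : 10 * S + 60 ≤ N) (hX : (lam : ℝ) - S * (P + Q - 1) / 2 + (3 * S + 18) ≤ N * M) :
    ∃ a b : Fin N → ℚ, Function.Injective a ∧
      EmpC (fun i k => k < P + Q ∧ i + S * k < lam) (fun _ => φ₀) a b := by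
  classical
  obtain ⟨x1, x2, y1, y2, t1, t2⟩ := trap_window hP w1 w2
  obtain ⟨J, rfl⟩ : ∃ J, N = J + 57 := ⟨N - 57, by omega⟩
  obtain ⟨h, hh⟩ : ∃ h, P + Q = h + 1 := ⟨P + Q - 1, by omega⟩
  have hh' : (P : ℝ) + Q - 1 = h := by
    have : (P : ℝ) + Q = h + 1 := by exact_mod_cast hh
    linarith
  have hh'' : P + Q - 1 = h := by omega
  have S0 : (2 : ℝ) ≤ S := by exact_mod_cast hS
  have J0 : (10 * S + 3 : ℝ) ≤ J := by exact_mod_cast (show 10 * S + 3 ≤ J by omega)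
  have b5 := mul_le_mul_of_nonneg_left t1 (Nat.cast_nonneg (α := ℝ) J)
  have b6 := mul_le_mul_of_nonneg_left t2 (Nat.cast_nonneg (α := ℝ) J)
  generalize ht : ((P : ℝ) + 1) / (P + Q) = t at *
  have B1 := Nat.floor_le (a := ((J + 57) * t - 3 * S - 18) / 2) (by linarith)
  have B2 := Nat.lt_floor_add_one (((J + 57) * t - 3 * S - 18) / 2)
  generalize ⌊((J + 57) * t - 3 * S - 18) / 2⌋₊ = B at B1 B2
  have hBJ : B ≤ J := by
    have : (B : ℝ) ≤ J := by linarith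
    exact_mod_cast this
  have small := trap_bubble hb hM (by omega) (by omega) le_rfl
    (trap_cap (J := 19) (A := 1) (B := 1) (g := 4) hP w1 w2 le_rfl (by norm_num) (by norm_num)
      (by rw [ht]; push_cast; linarith))
  have big := trap_bubble hb hM (by omega) (by omega) hBJ
    (trap_cap (J := J) (A := J) (B := B) (g := 2 * S) hP w1 w2 (by omega) (by omega) (by omega)
      (by rw [ht]; push_cast; linarith))
  rw [ht, hh', hh''] at small big
  obtain ⟨E₁, θ₁, ψ₁, p1, p2, p3⟩ := small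
  obtain ⟨E₂, θ₂, ψ₂, q1, q2, q3⟩ := big
  let ν : Fin 4 → Fin 5 → ℕ := ![![19, 1, 1, 4, 0], ![19, 1, 1, 4, 0], ![19, 1, 1, 4, 0],
    ![J, J, B, 2 * S, 0]]
  let ψ : Fin 4 → ℕ → ℕ := ![ψ₁, ψ₁, ψ₁, ψ₂]
  let Φ : Fin 5 → ℕ → ℕ := ![φ₀, fun k => h - k, fun k => h - k, fun k => h - k, fun _ => 0]
  let F : Fin 5 → Bool := ![false, true, true, true, false]
  obtain ⟨K, hK⟩ : ∃ K, K = 19 + J + B + 2 * S := ⟨_, rfl⟩
  have hK' : (K : ℝ) = 19 + J + B + 2 * S := by exact_mod_cast hK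
  have hD : H88.Bdd fun i k => k < h + 1 ∧ i + (S + K) * k < lam + K * h :=
    ⟨h + 1 + (lam + K * h), fun i k h => by omega⟩
  have main : GE (fun i k => k < h + 1 ∧ i + (S + K) * k < lam + K * h)
      (Sum.elim (fun (_ : Fin 1) k => h - k) ψ) (Sum.elim (fun _ => true) fun _ => false) := by
    push_cast at p2 q2 hX
    refine ge_leaf h (S + K) (lam + K * h - 1)
      (Sum.elim (fun _ => 1) ![19 * t, 19 * t, 19 * t, J - B + J * t])
      (Sum.elim (fun _ => h) ![19 * t * h / 2 + 19 * M + 3 * h - 6,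
        19 * t * h / 2 + 19 * M + 3 * h - 6, 19 * t * h / 2 + 19 * M + 3 * h - 6,
        (J - B + J * t) * h / 2 + J * M + (J + B + 2 * S) * h / 2 - 3 * S])
      (fun i k hk => ⟨by omega, ?_⟩) ?_ ?_ ?_ ?_ ?_ ?_
    · have : (i + (S + K) * k + 1 : ℝ) ≤ lam + K * h := by exact_mod_cast hk.2
      linarith
    · rintro (j | j) <;> simp
    · rintro (j | j) k _
      · simpa using bubble_sub h k
      · have a1 := p2 k
        have a2 := q2 k
        fin_cases j <;> simp only [Sum.elim_inr, ψ, Fin.reduceFinMk, Matrix.cons_val] <;> linarith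
    · simp only [Fintype.sum_sum_type, Fin.sum_univ_four, Fin.sum_univ_one, Sum.elim_inl,
        Sum.elim_inr, Matrix.cons_val]
      linarith
    · simp only [Fintype.sum_sum_type, Fin.sum_univ_four, Fin.sum_univ_one, Sum.elim_inl,
        Sum.elim_inr, Matrix.cons_val, if_true, Bool.false_eq_true, if_false]
      linarith
    · intro y
      simp only [Fintype.sum_sum_type, Fin.sum_univ_four, Fin.sum_univ_one, Sum.elim_inl,
        Sum.elim_inr, Matrix.cons_val]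
      have a := trap_dist (δ := 1 / 3) 7 (x := 19 * t) (by push_cast; linarith)
        (by push_cast; linarith)
      linarith [a (y (Sum.inr 0)), a (y (Sum.inr 1)), a (y (Sum.inr 2)),
        abs_nonneg ((y (Sum.inl 0) : ℝ) - 1), abs_nonneg ((y (Sum.inr 3) : ℝ) - (J - B + J * t))]
    · simp only [Fintype.sum_sum_type, Fin.sum_univ_four, Fin.sum_univ_one, Sum.elim_inl,
        Sum.elim_inr, Matrix.cons_val]
      rw [hh'] at hX
      rw [hK']
      linarith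
  have all := vsplit (κ := fun b => Σ τ : Fin 5, Fin (ν b τ)) hD (H := h + 1) (fun _ _ h => h.1)
    (fun _ => 2 * (P + Q)) ![E₁, E₁, E₁, E₂] ![θ₁, θ₁, θ₁, θ₂] (ψ := ψ)
    (fun b s k => by
      fin_cases b
      exacts [(p1 s k).2, (p1 s k).2, (p1 s k).2, (q1 s k).2])
    (fun b s k => by
      fin_cases b
      exacts [(p1 s k).1, (p1 s k).1, (p1 s k).1, (q1 s k).1])
    (φ := fun _ x => Φ x.1) (J := fun _ x => F x.1) main
    (fun b => by
      rw [← hh]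
      fin_cases b
      exacts [p3, p3, p3, q3])
  have card : ∀ c : Bool, (univ.filter fun j : Fin 1 ⊕ Σ b : Fin 4, Σ τ : Fin 5, Fin (ν b τ) =>
      Sum.elim (fun _ => true) (fun x => F x.2.1) j = c).card = if c then K else J + 57 := by
    intro c
    rw [card_filter, Fintype.sum_sum_type, Fintype.sum_sigma]
    simp only [Fintype.sum_sigma, Sum.elim_inl, Sum.elim_inr]
    cases c <;> simp [Fin.sum_univ_four, Fin.sum_univ_five, ν, F] <;> omega
  have hφ₀ : ∀ j : Fin 1 ⊕ Σ b : Fin 4, Σ τ : Fin 5, Fin (ν b τ),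
      Sum.elim (fun _ => true) (fun x => F x.2.1) j = false →
        Sum.elim (fun (_ : Fin 1) k => h - k) (fun x => Φ x.2.1) j = φ₀ := by
    rintro (j | ⟨b, τ, i⟩)
    · simp
    · fin_cases τ
      · simp [Φ]
      · simp [F]
      · simp [F]
      · simp [F]
      · fin_cases b <;> exact i.elim0
  obtain ⟨a, b, ha, hab⟩ := elm (h := h) (S := S) (lam := lam)
    (ι := Fin 1 ⊕ Σ b : Fin 4, Σ τ : Fin 5, Fin (ν b τ))
    (φ := Sum.elim (fun (_ : Fin 1) k => h - k) fun x => Φ x.2.1)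
    (J := Sum.elim (fun _ => true) fun x => F x.2.1) (by
      rintro (j | ⟨b, τ, i⟩)
      · simp
      · fin_cases τ <;> simp [F, Φ])
    (fun j hj k => by rw [hφ₀ j hj]; exact hφ k) (by rw [card true]; exact all)
  let e : Fin (J + 57) ≃ _ :=
    (Fintype.equivFinOfCardEq ((Fintype.card_subtype _).trans (card false))).symm
  refine ⟨fun i => a (e i), fun i => b (e i), ha.comp e.injective, fun f hf hv => ?_⟩
  rw [hh] at hf
  refine hab f hf fun j => ?_
  have := hv (e.symm j)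
  simp only [Equiv.apply_symm_apply] at this
  rw [← hφ₀ j.1 j.2] at this
  exact this

theorem trap_sum (S lam H : ℕ) (hl : S * H ≤ lam) :
    (2 * (∑ t ∈ range H, (lam - S * t) : ℕ) : ℝ) = H * (2 * lam - S * (H - 1)) := by
  induction H with
  | zero => simp
  | succ H ih =>
    have h1 : S * H ≤ lam := le_trans (Nat.mul_le_mul_left _ (by omega)) hl
    rw [sum_range_succ, Nat.cast_add, mul_add, ih h1, Nat.cast_sub h1]
    push_cast
    ring

theorem trap_plus {P Q S lam N : ℕ} (hP : 2000 ≤ P) (w1 : 248 * P ≤ 100 * (P + Q))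
    (w2 : 100 * (P + Q) ≤ 259 * P) (hS : 2 ≤ S) (hN : 10 * S + 60 ≤ N) (hl : S * (P + Q) ≤ lam)
    (h : ∑ t ∈ range (P + Q), (lam - S * t) + (3 * S + 18) * (P + Q) ≤ N * tri P) :
    Good (fun _ : Fin N => P) (tr (P + Q) fun t => lam - S * t) univ 0 := by
  have hH : (0 : ℝ) < P + Q := by
    have : (2000 : ℝ) ≤ P := by exact_mod_cast hP
    positivity
  obtain ⟨a, b, -, hab⟩ := trap_core (lam := lam) (M₂ := P * (P + 1)) (bub_plus P Q)
    (by push_cast; field_simp) (fun k => by omega) hP w1 w2 hS hN (by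
      have h1 := trap_sum S lam _ hl
      have h2 : (2 * tri P : ℝ) = P * (P + 1) := by exact_mod_cast two_tri P
      generalize ∑ t ∈ range (P + Q), (lam - S * t) = z at h h1
      have h3 : (z + (3 * S + 18) * (P + Q) : ℝ) ≤ N * tri P := by exact_mod_cast h
      rw [← h2, ← mul_div_assoc, le_div_iff₀ (by positivity)]
      push_cast at h1
      linarith)
  refine good_emp _ _ ((hab.complex ⟨P + Q + lam, fun i k h => by omega⟩).mono (H := P + Q)
    (fun _ _ h => h.1) (fun i k h => ⟨h.1, by omega⟩) fun _ _ _ => le_rfl)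

theorem trap_minus {P Q S lam N : ℕ} (hP : 2000 ≤ P) (w1 : 248 * P ≤ 100 * (P + Q))
    (w2 : 100 * (P + Q) ≤ 259 * P) (hS : 2 ≤ S) (hN : 10 * S + 60 ≤ N) (hl : S * (P + Q) ≤ lam)
    (hl' : lam ≤ N * P)
    (h : N * tri P + (3 * S + 18) * (P + Q) ≤ ∑ t ∈ range (P + Q), (lam - S * t)) :
    Good (fun _ : Fin N => P) (tr (P + Q) fun t => lam - S * t) univ
      (∑ t ∈ range (P + Q), (lam - S * t) - N * tri P) := by
  have hH : (0 : ℝ) < P + Q := by
    have : (2000 : ℝ) ≤ P := by exact_mod_cast hP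
    positivity
  obtain ⟨h', hh⟩ : ∃ h', P + Q = h' + 1 := ⟨P + Q - 1, by omega⟩
  have hh' : (P : ℝ) + Q - 1 = h' := by
    have : (P : ℝ) + Q = h' + 1 := by exact_mod_cast hh
    linarith
  obtain ⟨c, hc⟩ := Nat.exists_eq_add_of_le hl'
  have hc' : (N * P : ℝ) = lam + c := by exact_mod_cast hc
  obtain ⟨a, b, ha, hab⟩ := trap_core (lam := c + S * h') (M₂ := P * (P + 2 * Q - 1))
    (bub_minus P Q) (by
      rw [Nat.cast_mul, bubble_pred (by omega)]
      push_cast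
      field_simp
      ring) (fun k => by omega) hP w1 w2 hS hN (by
      have h1 := trap_sum S lam _ hl
      have h2 : (2 * tri P : ℝ) = P * (P + 1) := by exact_mod_cast two_tri P
      generalize ∑ t ∈ range (P + Q), (lam - S * t) = z at h h1
      have h3 : (N * tri P + (3 * S + 18) * (P + Q) : ℝ) ≤ z := by exact_mod_cast h
      have h4 : (N : ℝ) * (P * (P + 1) / (2 * (P + Q))) ≤
          lam - S * (P + Q - 1) / 2 - (3 * S + 18) := by
        rw [← h2, ← mul_div_assoc, div_le_iff₀ (by positivity)]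
        push_cast at h1
        linarith
      push_cast
      rw [← hh']
      linarith)
  have hm : mass (fun _ : Fin N => P) univ = N * tri P := by simp [mass]
  rw [← hm, hh]
  rw [hh] at hab hl
  refine good_dual _ _ (fun _ => by omega) (fun i j hij => ha (by exact_mod_cast hij))
    ((hab.complex ⟨h' + 1 + (c + S * h'), fun i k h => by omega⟩).mono (H := h' + 1)
    (fun _ _ h => h.1) (fun i k h => ⟨h.1, ?_⟩) fun _ _ _ => by simp)
  obtain ⟨h1, h2⟩ := h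
  obtain ⟨w, rfl⟩ := Nat.exists_eq_add_of_le (show k ≤ h' by omega)
  simp only [sum_const, card_univ, Fintype.card_fin, smul_eq_mul, Nat.add_sub_cancel_left] at h2
  simp only [mul_add] at hl ⊢
  omega

end Pool.Agent.Lib.MP_6e81d8_ag.H36
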